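import Pool.Agent.RCX.ASD

/-!
# Part (E): it suffices to consider sets whose least distance is at least (diam/6)^(1/4)
-/

set_option autoImplicit false

open scoped InnerProductSpace

namespace Pool.Agent.RCX.ASM

/-- decomposition of a good set: at most two points off, four classes with large distances -/
theorem dec (h5 : t_ST5) (hg : t_GRD) {S : Finset Pl} (hS : Good S) :
    ∃ (S' : Finset Pl) (g : Pl → Fin 4), S' ⊆ S ∧ (S \ S').card ≤ 2 ∧
      ∀ x ∈ S', ∀ y ∈ S', x ≠ y → g x = g y → Metric.diam (S' : Set Pl) ≤ 6 * dist x y ^ 4 := by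
  classical
  by_cases hex : ∃ r : ℕ, ∃ a ∈ S, ∃ U : Finset Pl, U ⊆ S ∧
      (∀ y ∈ U, y ≠ a ∧ dist a y ≤ (r : ℝ)) ∧ 3 < U.card
  · have hex' := hex
    set r := Nat.find hex' with hr
    obtain ⟨a, ha, U, hU, hUx, hU4⟩ := Nat.find_spec hex'
    rw [← hr] at hUx
    have hmin : ∀ n : ℕ, n < r → ∀ x ∈ S, ∀ V : Finset Pl, V ⊆ S →
        (∀ y ∈ V, y ≠ x ∧ dist x y ≤ (n : ℝ)) → V.card ≤ 3 := by
      intro n hn x hx V hV hVx
      by_contra hcon
      rw [not_le] at hcon
      exact Nat.find_min hex' hn ⟨x, hx, V, hV, hVx, hcon⟩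
    have hr0 : 0 < r := by
      obtain ⟨y, hy⟩ := Finset.card_pos.1 (show 0 < U.card by omega)
      have h1 := (hUx y hy).2
      have h2 := hS.one_le ha (hU hy) (hUx y hy).1.symm
      have h3 : (0 : ℝ) < r := by linarith
      exact_mod_cast h3
    set E : Finset Pl := S.filter (fun p => 3 * (r : ℝ) ^ 4 < dist a p) with hE
    have hEc : E.card ≤ 2 := far_card h5 hS ha hU hUx hU4
    set S' : Finset Pl := S \ E with hS'
    have hsub : S' ⊆ S := Finset.sdiff_subset
    have hgood : Good S' := hS.subset hsub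
    have hdiam : Metric.diam (S' : Set Pl) ≤ 6 * (r : ℝ) ^ 4 := by
      refine Metric.diam_le_of_forall_dist_le (by positivity) ?_
      intro p hp q hq
      have a1 : dist a p ≤ 3 * (r : ℝ) ^ 4 := by
        rw [hS', Finset.mem_coe, Finset.mem_sdiff, hE, Finset.mem_filter, not_and, not_lt] at hp
        exact hp.2 hp.1
      have a2 : dist a q ≤ 3 * (r : ℝ) ^ 4 := by
        rw [hS', Finset.mem_coe, Finset.mem_sdiff, hE, Finset.mem_filter, not_and, not_lt] at hq
        exact hq.2 hq.1
      have a3 := dist_triangle_left p q a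
      linarith
    have hrR : (0 : ℝ) < r := by exact_mod_cast hr0
    obtain ⟨g, hgc⟩ := hg 3 S' (fun x y => dist x y ≤ (r : ℝ) - 1)
      (fun x y h => by rw [dist_comm]; exact h) (by
        intro x hx V hV hVx
        refine hmin (r - 1) (by omega) x (hsub hx) V (hV.trans hsub) ?_
        intro y hy
        refine ⟨(hVx y hy).1, ?_⟩
        rw [Nat.cast_sub (by omega : 1 ≤ r), Nat.cast_one]
        exact (hVx y hy).2)
    refine ⟨S', g, hsub, ?_, ?_⟩
    · have : S \ S' ⊆ E := by
        intro x hx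
        rw [Finset.mem_sdiff, hS', Finset.mem_sdiff, not_and, not_not] at hx
        exact hx.2 hx.1
      exact (Finset.card_le_card this).trans hEc
    · intro x hx y hy hxy hgxy
      have h1 : ¬ dist x y ≤ (r : ℝ) - 1 := fun h => hgc x hx y hy hxy h hgxy
      rw [not_le] at h1
      obtain ⟨n, hn⟩ := hgood.nat hx hy
      rw [hn] at h1 ⊢
      have h2 : (r : ℝ) < n + 1 := by linarith
      have h3 : r < n + 1 := by exact_mod_cast h2
      have h4 : (r : ℝ) ≤ n := by exact_mod_cast (by omega : r ≤ n)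
      have h5 : (r : ℝ) ^ 4 ≤ (n : ℝ) ^ 4 := pow_le_pow_left₀ hrR.le h4 4
      linarith
  · push Not at hex
    have hcard : S.card ≤ 4 := by
      rcases S.eq_empty_or_nonempty with hS0 | ⟨a, ha⟩
      · rw [hS0]; simp
      · have hb : ∃ N : ℕ, ∀ y ∈ S, dist a y ≤ (N : ℝ) := by
          obtain ⟨N, hN⟩ := exists_nat_ge (∑ y ∈ S, dist a y)
          refine ⟨N, fun y hy => le_trans ?_ hN⟩
          exact Finset.single_le_sum (f := fun y => dist a y) (fun _ _ => dist_nonneg) hy
        obtain ⟨N, hN⟩ := hb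
        have h1 := hex N a ha (S.erase a) (Finset.erase_subset _ _) (by
          intro y hy
          rw [Finset.mem_erase] at hy
          exact ⟨hy.1, hN y hy.2⟩)
        rw [Finset.card_erase_of_mem ha] at h1
        omega
    obtain ⟨g, hgc⟩ := hg 3 S (fun _ _ => True) (fun _ _ _ => trivial) (by
      intro x hx V hV hVx
      have h1 : V ⊆ S.erase x := by
        intro y hy
        rw [Finset.mem_erase]
        exact ⟨(hVx y hy).1, hV hy⟩
      have h2 := Finset.card_le_card h1
      rw [Finset.card_erase_of_mem hx] at h2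
      omega)
    refine ⟨S, g, subset_rfl, by simp, ?_⟩
    intro x hx y hy hxy hgxy
    exact absurd hgxy (hgc x hx y hy hxy trivial)

/-- Q1 for sets whose least distance is at least the fourth root of diam/6 implies Q1 -/
theorem partE (h5 : t_ST5) (hg : t_GRD) (hm : t_MRG)
    (h : ∃ K : ℕ, ∀ S : Finset Pl, Good S →
      (∀ x ∈ S, ∀ y ∈ S, x ≠ y → Metric.diam (S : Set Pl) ≤ 6 * dist x y ^ 4) → Cp K S) :
    ∃ K : ℕ, ∀ S : Finset Pl, Good S → Cp K S := by
  obtain ⟨K, hK⟩ := h
  refine ⟨4 * K + 1, fun S hS => ?_⟩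
  obtain ⟨S', g, hsub, hsmall, hd⟩ := dec h5 hg hS
  refine add_small hm (glue hm g ?_) hsub hsmall
  intro i
  refine hK (cls S' g i) (hS.subset ((cls_subset S' g i).trans hsub)) ?_
  intro x hx y hy hxy
  have hx' := mem_cls.1 hx
  have hy' := mem_cls.1 hy
  refine le_trans ?_ (hd x hx'.1 y hy'.1 hxy (hx'.2.trans hy'.2.symm))
  refine Metric.diam_mono ?_ (S'.finite_toSet.isBounded)
  intro z hz
  exact cls_subset S' g i hz

end Pool.Agent.RCX.ASM
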