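import Pool.Agent.RCX.St

/-!
# RCX: CON
-/

set_option autoImplicit false

namespace Pool.Agent.RCX

theorem CON_thm : t_CON := by
  intro g11 g12 g22 h1 h2 k1 k2 s3 t3 s4 t4 hG hx hx' ht3 ht4 hdet e3 e4 f3 f4
  -- Z and Y
  have hD : t3 * t4 * (s3 * (t4 - 1) - s4 * (t3 - 1)) ≠ 0 :=
    mul_ne_zero (mul_ne_zero ht3 ht4) hdet
  have hZ : (g11 - k1 ^ 2) * (g12 - h1 * h2) - (g11 - h1 ^ 2) * (g12 - k1 * k2) = 0 := by
    have : ((g11 - k1 ^ 2) * (g12 - h1 * h2) - (g11 - h1 ^ 2) * (g12 - k1 * k2)) *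
        (t3 * t4 * (s3 * (t4 - 1) - s4 * (t3 - 1))) = 0 := by
      linear_combination ((g11 - k1 ^ 2) * t4 * (t4 - 1) / 2) * e3 -
        ((g11 - k1 ^ 2) * t3 * (t3 - 1) / 2) * e4 -
        ((g11 - h1 ^ 2) * t4 * (t4 - 1) / 2) * f3 + ((g11 - h1 ^ 2) * t3 * (t3 - 1) / 2) * f4
    exact (mul_eq_zero.1 this).resolve_right hD
  have hY : (g11 - k1 ^ 2) * (g22 - h2 ^ 2) - (g11 - h1 ^ 2) * (g22 - k2 ^ 2) = 0 := by
    have e3' : ((g11 - k1 ^ 2) * (g22 - h2 ^ 2) - (g11 - h1 ^ 2) * (g22 - k2 ^ 2)) *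
        (t3 * (t3 - 1)) = 0 := by
      linear_combination (g11 - k1 ^ 2) * e3 - (g11 - h1 ^ 2) * f3 - 2 * s3 * t3 * hZ
    have e4' : ((g11 - k1 ^ 2) * (g22 - h2 ^ 2) - (g11 - h1 ^ 2) * (g22 - k2 ^ 2)) *
        (t4 * (t4 - 1)) = 0 := by
      linear_combination (g11 - k1 ^ 2) * e4 - (g11 - h1 ^ 2) * f4 - 2 * s4 * t4 * hZ
    by_contra hne
    have h3 : t3 - 1 = 0 := by
      rcases mul_eq_zero.1 e3' with h | h
      · exact absurd h hne
      · exact (mul_eq_zero.1 h).resolve_left ht3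
    have h4 : t4 - 1 = 0 := by
      rcases mul_eq_zero.1 e4' with h | h
      · exact absurd h hne
      · exact (mul_eq_zero.1 h).resolve_left ht4
    apply hdet
    rw [h3, h4]
    ring
  -- l = 1
  obtain ⟨l, hl⟩ : ∃ l, l = (g11 - h1 ^ 2) / (g11 - k1 ^ 2) := ⟨_, rfl⟩
  have hl0 : 0 < l := by rw [hl]; exact div_pos hx hx'
  have a1 : g11 - h1 ^ 2 = l * (g11 - k1 ^ 2) := by
    rw [hl, div_mul_cancel₀ _ hx'.ne']
  have a2 : g12 - h1 * h2 = l * (g12 - k1 * k2) := by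
    have : (g11 - k1 ^ 2) * (g12 - h1 * h2 - l * (g12 - k1 * k2)) = 0 := by
      linear_combination hZ + (g12 - k1 * k2) * a1
    have := (mul_eq_zero.1 this).resolve_left hx'.ne'
    linarith
  have a3 : g22 - h2 ^ 2 = l * (g22 - k2 ^ 2) := by
    have : (g11 - k1 ^ 2) * (g22 - h2 ^ 2 - l * (g22 - k2 ^ 2)) = 0 := by
      linear_combination hY + (g22 - k2 ^ 2) * a1
    have := (mul_eq_zero.1 this).resolve_left hx'.ne'
    linarith
  have b1 : (1 - l) * g11 = h1 ^ 2 - l * k1 ^ 2 := by linarith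
  have b2 : (1 - l) * g12 = h1 * h2 - l * (k1 * k2) := by linarith
  have b3 : (1 - l) * g22 = h2 ^ 2 - l * k2 ^ 2 := by linarith
  have key : (1 - l) ^ 2 * (g11 * g22 - g12 ^ 2) = -(l * (h1 * k2 - h2 * k1) ^ 2) := by
    have : (1 - l) ^ 2 * (g11 * g22 - g12 ^ 2) =
        ((1 - l) * g11) * ((1 - l) * g22) - ((1 - l) * g12) ^ 2 := by ring
    rw [this, b1, b2, b3]
    ring
  have hl1 : (1 - l) ^ 2 = 0 := by
    have h5 : (1 - l) ^ 2 * (g11 * g22 - g12 ^ 2) ≤ 0 := by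
      rw [key]
      have := mul_nonneg hl0.le (sq_nonneg (h1 * k2 - h2 * k1))
      linarith
    by_contra hne
    have h6 : 0 < (1 - l) ^ 2 := lt_of_le_of_ne (sq_nonneg _) (Ne.symm hne)
    have := mul_pos h6 hG
    linarith
  have hl2 : l = 1 := by
    have := pow_eq_zero_iff (two_ne_zero) |>.1 hl1
    linarith
  subst hl2
  have c1 : h1 ^ 2 = k1 ^ 2 := by linarith
  have c2 : h1 * h2 = k1 * k2 := by linarith
  have c3 : h2 ^ 2 = k2 ^ 2 := by linarith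
  rcases sq_eq_sq_iff_eq_or_eq_neg.1 c1 with h | h
  · by_cases hk : k1 = 0
    · have hh : h1 = 0 := by rw [h, hk]
      rcases sq_eq_sq_iff_eq_or_eq_neg.1 c3 with h' | h'
      · exact Or.inl ⟨h, h'⟩
      · exact Or.inr ⟨by rw [hh, hk, neg_zero], h'⟩
    · left
      refine ⟨h, ?_⟩
      rw [h] at c2
      exact mul_left_cancel₀ hk c2
  · by_cases hk : k1 = 0
    · have hh : h1 = 0 := by rw [h, hk, neg_zero]
      rcases sq_eq_sq_iff_eq_or_eq_neg.1 c3 with h' | h'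
      · exact Or.inl ⟨by rw [hh, hk], h'⟩
      · exact Or.inr ⟨h, h'⟩
    · right
      refine ⟨h, ?_⟩
      rw [h] at c2
      have : k1 * (h2 + k2) = 0 := by linarith
      have := (mul_eq_zero.1 this).resolve_left hk
      linarith

end Pool.Agent.RCX
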