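import Pool.Agent.RCX.St

/-!
# Far points: the differences of distances depend linearly on the near points
-/

set_option autoImplicit false

open scoped InnerProductSpace

namespace Pool.Agent.RCX

namespace EXA

theorem inner_half {S : Finset Pl} (hS : Good S) {a b c : Pl} (ha : a ∈ S) (hb : b ∈ S)
    (hc : c ∈ S) : ∃ n : ℤ, 2 * ⟪b - a, c - a⟫_ℝ = n := by
  obtain ⟨x, hx⟩ := hS.2 a ha b hb
  obtain ⟨y, hy⟩ := hS.2 a ha c hc
  obtain ⟨z, hz⟩ := hS.2 b hb c hc
  refine ⟨x ^ 2 + y ^ 2 - z ^ 2, ?_⟩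
  have h := norm_sub_sq_real (b - a) (c - a)
  rw [sub_sub_sub_cancel_right, ← dist_eq_norm, ← dist_eq_norm, ← dist_eq_norm, dist_comm b a,
    dist_comm c a, hx, hy, hz] at h
  push_cast
  linarith

theorem two_inner (a b p : Pl) :
    2 * ⟪p - a, b - a⟫_ℝ = 2 * dist a p * (dist a p - dist b p) +
      (dist a b ^ 2 - (dist a p - dist b p) ^ 2) := by
  have h := norm_sub_sq_real (p - a) (b - a)
  rw [sub_sub_sub_cancel_right, ← dist_eq_norm, ← dist_eq_norm, ← dist_eq_norm, dist_comm p b,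
    dist_comm p a, dist_comm b a] at h
  linear_combination h

theorem beta {a b p : Pl} {ρ : ℝ} (h : dist a b ≤ ρ) :
    |dist a b ^ 2 - (dist a p - dist b p) ^ 2| ≤ ρ ^ 2 := by
  have h1 : dist a p ≤ dist a b + dist b p := dist_triangle _ _ _
  have h2 : dist b p ≤ dist a b + dist a p := by
    rw [dist_comm a b]
    exact dist_triangle _ _ _
  have h3 : (dist a p - dist b p) ^ 2 ≤ dist a b ^ 2 := sq_le_sq' (by linarith) (by linarith)
  have h4 : dist a b ^ 2 ≤ ρ ^ 2 := pow_le_pow_left₀ dist_nonneg h 2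
  rw [abs_le]
  constructor
  · nlinarith [sq_nonneg ρ]
  · nlinarith [sq_nonneg (dist a p - dist b p)]

theorem mul_bound {t b ρ : ℝ} (h1 : |t| ≤ 2 * ρ ^ 2) (h2 : |b| ≤ ρ ^ 2) :
    |t * b| ≤ 2 * ρ ^ 4 := by
  rw [abs_mul]
  calc |t| * |b| ≤ (2 * ρ ^ 2) * ρ ^ 2 := mul_le_mul h1 h2 (abs_nonneg _) (by positivity)
    _ = 2 * ρ ^ 4 := by ring

end EXA

theorem EXA_thm (h1 : t_IRL) : t_EXA := by
  intro S ρ hS a ha b1 hb1 b2 hb2 b3 hb3 p hp hab1 hab2 hb12 hr1 hr2 hr3 hD s t hst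
  have hcr : cr (b1 - a) (b2 - a) ≠ 0 := hS.cr_ne ha hb1 hb2 hab1 hab2 hb12
  obtain ⟨t1, t2, t3, ht3, ha1, ha2, ha3, hrel⟩ := h1 (b1 - a) (b2 - a) (b3 - a) ρ
    (EXA.inner_half hS ha hb1 hb1) (EXA.inner_half hS ha hb2 hb2) (EXA.inner_half hS ha hb3 hb3)
    (EXA.inner_half hS ha hb1 hb2) (EXA.inner_half hS ha hb2 hb3) (EXA.inner_half hS ha hb3 hb1)
    hcr (by rw [← dist_eq_norm, dist_comm]; exact hr1) (by rw [← dist_eq_norm, dist_comm]; exact hr2)
    (by rw [← dist_eq_norm, dist_comm]; exact hr3)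
  have hrel' : (t1 : ℝ) * ⟪p - a, b1 - a⟫_ℝ + t2 * ⟪p - a, b2 - a⟫_ℝ +
      t3 * ⟪p - a, b3 - a⟫_ℝ = 0 := by
    rw [← real_inner_smul_right, ← real_inner_smul_right, ← real_inner_smul_right,
      ← inner_add_right, ← inner_add_right, hrel, inner_zero_right]
  have e1 := EXA.two_inner a b1 p
  have e2 := EXA.two_inner a b2 p
  have e3 := EXA.two_inner a b3 p
  have m1 := EXA.mul_bound ha1 (EXA.beta (p := p) hr1)
  have m2 := EXA.mul_bound ha2 (EXA.beta (p := p) hr2)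
  have m3 := EXA.mul_bound ha3 (EXA.beta (p := p) hr3)
  have hDpos : 0 < dist a p := lt_of_le_of_lt (by positivity) hD
  have hsum : 2 * dist a p * (t1 * (dist a p - dist b1 p) + t2 * (dist a p - dist b2 p) +
      t3 * (dist a p - dist b3 p)) = -(t1 * (dist a b1 ^ 2 - (dist a p - dist b1 p) ^ 2) +
      t2 * (dist a b2 ^ 2 - (dist a p - dist b2 p) ^ 2) +
      t3 * (dist a b3 ^ 2 - (dist a p - dist b3 p) ^ 2)) := by
    linear_combination 2 * hrel' - t1 * e1 - t2 * e2 - t3 * e3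
  have hN : (t1 : ℝ) * (dist a p - dist b1 p) + t2 * (dist a p - dist b2 p) +
      t3 * (dist a p - dist b3 p) = 0 := by
    obtain ⟨n0, hn0⟩ := hS.2 a ha p hp
    obtain ⟨n1, hn1⟩ := hS.2 b1 hb1 p hp
    obtain ⟨n2, hn2⟩ := hS.2 b2 hb2 p hp
    obtain ⟨n3, hn3⟩ := hS.2 b3 hb3 p hp
    have hNi : (t1 : ℝ) * (dist a p - dist b1 p) + t2 * (dist a p - dist b2 p) +
        t3 * (dist a p - dist b3 p) =
        ((t1 * (n0 - n1) + t2 * (n0 - n2) + t3 * (n0 - n3) : ℤ) : ℝ) := by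
      rw [hn0, hn1, hn2, hn3]
      push_cast
      ring
    by_contra hc
    rw [hNi] at hc
    have hc' : (t1 * (n0 - n1) + t2 * (n0 - n2) + t3 * (n0 - n3) : ℤ) ≠ 0 := by
      intro h
      exact hc (by rw [h]; simp)
    have hge : (1 : ℝ) ≤ |((t1 * (n0 - n1) + t2 * (n0 - n2) + t3 * (n0 - n3) : ℤ) : ℝ)| := by
      have := Int.one_le_abs hc'
      exact_mod_cast this
    rw [← hNi] at hge
    have habs := congrArg abs hsum
    rw [abs_neg, abs_mul, abs_of_pos (show 0 < 2 * dist a p by linarith)] at habs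
    have hup := abs_add_three (t1 * (dist a b1 ^ 2 - (dist a p - dist b1 p) ^ 2))
      (t2 * (dist a b2 ^ 2 - (dist a p - dist b2 p) ^ 2))
      (t3 * (dist a b3 ^ 2 - (dist a p - dist b3 p) ^ 2))
    have hlow : 2 * dist a p * 1 ≤ 2 * dist a p * |(t1 : ℝ) * (dist a p - dist b1 p) +
      t2 * (dist a p - dist b2 p) + t3 * (dist a p - dist b3 p)| :=
      mul_le_mul_of_nonneg_left hge (by linarith)
    linarith
  have hB : (t1 : ℝ) * (dist a b1 ^ 2 - (dist a p - dist b1 p) ^ 2) +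
      t2 * (dist a b2 ^ 2 - (dist a p - dist b2 p) ^ 2) +
      t3 * (dist a b3 ^ 2 - (dist a p - dist b3 p) ^ 2) = 0 := by
    rw [hN, mul_zero] at hsum
    linarith
  have ht3' : (t3 : ℝ) ≠ 0 := by exact_mod_cast ht3
  -- the coefficients
  have c0 : ∀ i, (t1 : ℝ) * (b1 - a) i + t2 * (b2 - a) i + t3 * (s * (b1 - a) i + t * (b2 - a) i)
      = 0 := by
    intro i
    have := congrArg (fun v : Pl => v i) hrel
    rw [hst] at this
    simpa [mul_add, mul_assoc] using this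
  have c1 : (t1 : ℝ) = -(t3 * s) := by
    have h : ((t1 : ℝ) + t3 * s) * cr (b1 - a) (b2 - a) = 0 := by
      rw [cr]
      linear_combination (b2 - a) 1 * c0 0 - (b2 - a) 0 * c0 1
    rcases mul_eq_zero.1 h with h | h
    · linarith
    · exact absurd h hcr
  have c2 : (t2 : ℝ) = -(t3 * t) := by
    have h : ((t2 : ℝ) + t3 * t) * cr (b1 - a) (b2 - a) = 0 := by
      rw [cr]
      linear_combination (b1 - a) 0 * c0 1 - (b1 - a) 1 * c0 0
    rcases mul_eq_zero.1 h with h | h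
    · linarith
    · exact absurd h hcr
  rw [c1, c2] at hN hB
  constructor
  · apply mul_left_cancel₀ ht3'
    linear_combination hN
  · apply mul_left_cancel₀ ht3'
    linear_combination hB

end Pool.Agent.RCX
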