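import Pool.Agent.RCX.St

/-!
# `RCX_GRD`: greedy colouring
-/

set_option autoImplicit false

namespace Pool.Agent.RCX

open Classical in
theorem GRD_thm : t_GRD := by
  intro k T R hsym
  induction T using Finset.induction_on with
  | empty =>
    intro _
    exact ⟨fun _ => 0, by simp⟩
  | insert x T hx ih =>
    intro h
    obtain ⟨g, hg⟩ := ih (fun y hy U hU hR =>
      h y (Finset.mem_insert_of_mem hy) U (hU.trans (Finset.subset_insert x T)) hR)
    have hcard : (T.filter fun y => R x y).card ≤ k := by
      refine h x (Finset.mem_insert_self x T) _
        ((Finset.filter_subset _ _).trans (Finset.subset_insert x T)) ?_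
      intro y hy
      rw [Finset.mem_filter] at hy
      exact ⟨fun he => hx (he ▸ hy.1), hy.2⟩
    have hc : ∃ c : Fin (k + 1), c ∉ (T.filter fun y => R x y).image g := by
      by_contra hcon
      push Not at hcon
      have h1 : (Finset.univ : Finset (Fin (k + 1))) ⊆ (T.filter fun y => R x y).image g :=
        fun c _ => hcon c
      have h2 := Finset.card_le_card h1
      rw [Finset.card_univ, Fintype.card_fin] at h2
      have h3 := Finset.card_image_le (s := T.filter fun y => R x y) (f := g)
      omega
    obtain ⟨c, hc⟩ := hc
    refine ⟨Function.update g x c, ?_⟩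
    intro a ha b hb hab hR
    rw [Finset.mem_insert] at ha hb
    rcases ha with ha | ha
    · subst ha
      rcases hb with hb | hb
      · exact absurd hb.symm hab
      · rw [Function.update_self, Function.update_of_ne (Ne.symm hab)]
        intro he
        exact hc (Finset.mem_image.2 ⟨b, Finset.mem_filter.2 ⟨hb, hR⟩, he.symm⟩)
    · rcases hb with hb | hb
      · subst hb
        rw [Function.update_self, Function.update_of_ne hab]
        intro he
        exact hc (Finset.mem_image.2 ⟨a, Finset.mem_filter.2 ⟨ha, hsym _ _ hR⟩, he⟩)
      · have ha' : a ≠ x := fun he => hx (he ▸ ha)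
        have hb' : b ≠ x := fun he => hx (he ▸ hb)
        rw [Function.update_of_ne ha', Function.update_of_ne hb']
        exact hg a ha b hb hab hR

end Pool.Agent.RCX
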