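import Pool.Agent.RCX.St

/-!
# Integral relation between three vectors of the plane (MP_a57197_co)
-/

set_option autoImplicit false

open scoped InnerProductSpace

namespace Pool.Agent.RCX

namespace IRL

/-- Bezout for three integers -/
theorem bez (x1 x2 x3 : ℤ) (h3 : x3 ≠ 0) : ∃ g t1 t2 t3 m1 m2 m3 : ℤ, g ≠ 0 ∧
    x1 = g * t1 ∧ x2 = g * t2 ∧ x3 = g * t3 ∧ m1 * t1 + m2 * t2 + m3 * t3 = 1 := by
  have d1 : ((Int.gcd x1 x2 : ℕ) : ℤ) ∣ x1 := Int.gcd_dvd_left ..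
  have d2 : ((Int.gcd x1 x2 : ℕ) : ℤ) ∣ x2 := Int.gcd_dvd_right ..
  have hb1 := Int.gcd_eq_gcd_ab x1 x2
  generalize ((Int.gcd x1 x2 : ℕ) : ℤ) = g1 at d1 d2 hb1
  have e1 : ((Int.gcd g1 x3 : ℕ) : ℤ) ∣ g1 := Int.gcd_dvd_left ..
  have e3 : ((Int.gcd g1 x3 : ℕ) : ℤ) ∣ x3 := Int.gcd_dvd_right ..
  have hb2 := Int.gcd_eq_gcd_ab g1 x3
  generalize ((Int.gcd g1 x3 : ℕ) : ℤ) = g at e1 e3 hb2
  obtain ⟨y1, hy1⟩ := d1
  obtain ⟨y2, hy2⟩ := d2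
  obtain ⟨z1, hz1⟩ := e1
  obtain ⟨z3, hz3⟩ := e3
  have hg0 : g ≠ 0 := by
    intro h0
    apply h3
    rw [hz3, h0, zero_mul]
  refine ⟨g, z1 * y1, z1 * y2, z3, Int.gcdA x1 x2 * Int.gcdA g1 x3,
    Int.gcdB x1 x2 * Int.gcdA g1 x3, Int.gcdB g1 x3, hg0, ?_, ?_, hz3, ?_⟩
  · rw [← mul_assoc, ← hz1]; exact hy1
  · rw [← mul_assoc, ← hz1]; exact hy2
  · apply mul_left_cancel₀ hg0
    generalize Int.gcdA x1 x2 = A at hb1 ⊢
    generalize Int.gcdB x1 x2 = B at hb1 ⊢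
    generalize Int.gcdA g1 x3 = A' at hb2 ⊢
    generalize Int.gcdB g1 x3 = B' at hb2 ⊢
    linear_combination (-(A * A' * y1) - B * A' * y2) * hz1 - A' * A * hy1 - A' * B * hy2
      - A' * hb1 - B' * hz3 - hb2

/-- the product of two determinants in terms of inner products -/
theorem cr_mul (x y z w : Pl) :
    cr x y * cr z w = ⟪x, z⟫_ℝ * ⟪y, w⟫_ℝ - ⟪x, w⟫_ℝ * ⟪y, z⟫_ℝ := by
  simp only [cr, inner_eq]
  ring

end IRL

theorem IRL_thm : t_IRL := by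
  intro b1 b2 b3 ρ h11 h22 h33 h12 h23 h31 hcr hb1 hb2 hb3
  obtain ⟨n11, e11⟩ := h11
  obtain ⟨n22, e22⟩ := h22
  obtain ⟨n33, e33⟩ := h33
  obtain ⟨n12, e12⟩ := h12
  obtain ⟨n23, e23⟩ := h23
  obtain ⟨n31, e31⟩ := h31
  have e21 : 2 * ⟪b2, b1⟫_ℝ = (n12 : ℝ) := by rw [real_inner_comm]; exact e12
  have e32 : 2 * ⟪b3, b2⟫_ℝ = (n23 : ℝ) := by rw [real_inner_comm]; exact e23
  have e13 : 2 * ⟪b1, b3⟫_ℝ = (n31 : ℝ) := by rw [real_inner_comm]; exact e31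
  -- the three determinants
  have k11 : 4 * (cr b2 b3 * cr b2 b3) = ((n22 * n33 - n23 * n23 : ℤ) : ℝ) := by
    rw [IRL.cr_mul]; push_cast; rw [← e22, ← e33, ← e23, real_inner_comm b3 b2]; ring
  have k12 : 4 * (cr b2 b3 * cr b3 b1) = ((n23 * n31 - n12 * n33 : ℤ) : ℝ) := by
    rw [IRL.cr_mul]; push_cast; rw [← e23, ← e31, ← e21, ← e33]; ring
  have k13 : 4 * (cr b2 b3 * cr b1 b2) = ((n12 * n23 - n22 * n31 : ℤ) : ℝ) := by
    rw [IRL.cr_mul]; push_cast; rw [← e21, ← e32, ← e22, ← e31]; ring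
  have k22 : 4 * (cr b3 b1 * cr b3 b1) = ((n33 * n11 - n31 * n31 : ℤ) : ℝ) := by
    rw [IRL.cr_mul]; push_cast; rw [← e33, ← e11, ← e31, real_inner_comm b1 b3]; ring
  have k23 : 4 * (cr b3 b1 * cr b1 b2) = ((n31 * n12 - n23 * n11 : ℤ) : ℝ) := by
    rw [IRL.cr_mul]; push_cast; rw [← e31, ← e12, ← e32, ← e11]; ring
  have k33 : 4 * (cr b1 b2 * cr b1 b2) = ((n11 * n22 - n12 * n12 : ℤ) : ℝ) := by
    rw [IRL.cr_mul]; push_cast; rw [← e11, ← e22, ← e12, real_inner_comm b2 b1]; ring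
  have hrel0 : cr b2 b3 * b1 0 + cr b3 b1 * b2 0 + cr b1 b2 * b3 0 = 0 := by
    simp only [cr]; ring
  have hrel1 : cr b2 b3 * b1 1 + cr b3 b1 * b2 1 + cr b1 b2 * b3 1 = 0 := by
    simp only [cr]; ring
  have hρ : 0 ≤ ρ := le_trans (norm_nonneg _) hb1
  have c1 : |cr b2 b3| ≤ ρ ^ 2 := by
    refine (abs_cr_le _ _).trans ?_
    rw [sq]; exact mul_le_mul hb2 hb3 (norm_nonneg _) hρ
  have c2 : |cr b3 b1| ≤ ρ ^ 2 := by
    refine (abs_cr_le _ _).trans ?_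
    rw [sq]; exact mul_le_mul hb3 hb1 (norm_nonneg _) hρ
  have c3 : |cr b1 b2| ≤ ρ ^ 2 := by
    refine (abs_cr_le _ _).trans ?_
    rw [sq]; exact mul_le_mul hb1 hb2 (norm_nonneg _) hρ
  generalize cr b2 b3 = K1 at k11 k12 k13 hrel0 hrel1 c1
  generalize cr b3 b1 = K2 at k12 k22 k23 hrel0 hrel1 c2
  generalize cr b1 b2 = K3 at k13 k23 k33 hrel0 hrel1 c3 hcr
  generalize n22 * n33 - n23 * n23 = N11 at k11
  generalize n23 * n31 - n12 * n33 = N12 at k12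
  generalize n12 * n23 - n22 * n31 = N13 at k13
  generalize n33 * n11 - n31 * n31 = N22 at k22
  generalize n31 * n12 - n23 * n11 = N23 at k23
  generalize n11 * n22 - n12 * n12 = N33 at k33
  have hN33 : N33 ≠ 0 := by
    intro h0
    rw [h0] at k33
    have : K3 * K3 ≠ 0 := mul_ne_zero hcr hcr
    apply this
    push_cast at k33
    linarith
  obtain ⟨g, t1, t2, t3, m1, m2, m3, hg, hx1, hx2, hx3, hm⟩ := IRL.bez N13 N23 N33 hN33
  have hgR : (g : ℝ) ≠ 0 := by exact_mod_cast hg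
  rw [hx1] at k13
  rw [hx2] at k23
  rw [hx3] at k33
  push_cast at k13 k23 k33
  have ht3 : t3 ≠ 0 := by
    rintro rfl
    apply hN33
    rw [hx3, mul_zero]
  -- t_i = c K_i
  obtain ⟨c, hc⟩ : ∃ c : ℝ, c = 4 * K3 / g := ⟨_, rfl⟩
  have hgc : (g : ℝ) * c = 4 * K3 := by rw [hc]; field_simp
  have T1 : (t1 : ℝ) = c * K1 := by
    apply mul_left_cancel₀ hgR
    linear_combination (-1 : ℝ) * k13 - K1 * hgc
  have T2 : (t2 : ℝ) = c * K2 := by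
    apply mul_left_cancel₀ hgR
    linear_combination (-1 : ℝ) * k23 - K2 * hgc
  have T3 : (t3 : ℝ) = c * K3 := by
    apply mul_left_cancel₀ hgR
    linear_combination (-1 : ℝ) * k33 - K3 * hgc
  have hc0 : c ≠ 0 := by
    intro h0
    apply ht3
    have : (t3 : ℝ) = 0 := by rw [T3, h0, zero_mul]
    exact_mod_cast this
  have hmR : (m1 : ℝ) * t1 + m2 * t2 + m3 * t3 = 1 := by exact_mod_cast hm
  -- theta is an integer
  have hθ : 4 = c ^ 2 * ((m1 * m1 * N11 + 2 * m1 * m2 * N12 + 2 * m1 * m3 * (g * t1)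
      + m2 * m2 * N22 + 2 * m2 * m3 * (g * t2) + m3 * m3 * (g * t3) : ℤ) : ℝ) := by
    push_cast
    rw [← k11, ← k12, ← k13, ← k22, ← k23, ← k33]
    have h1 : c * ((m1 : ℝ) * K1 + m2 * K2 + m3 * K3) = 1 := by
      rw [← hmR, T1, T2, T3]; ring
    have h2 : (c * ((m1 : ℝ) * K1 + m2 * K2 + m3 * K3)) ^ 2 = 1 := by rw [h1]; ring
    linear_combination (-4 : ℝ) * h2
  have hc2 : c ^ 2 ≤ 4 := by
    generalize (m1 * m1 * N11 + 2 * m1 * m2 * N12 + 2 * m1 * m3 * (g * t1)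
      + m2 * m2 * N22 + 2 * m2 * m3 * (g * t2) + m3 * m3 * (g * t3) : ℤ) = θ at hθ
    have hcp : 0 < c ^ 2 := by positivity
    have hθ1 : 1 ≤ θ := by
      by_contra hcon
      have : θ ≤ 0 := by omega
      have h0 : (θ : ℝ) ≤ 0 := by exact_mod_cast this
      nlinarith
    have hθR : (1 : ℝ) ≤ θ := by exact_mod_cast hθ1
    nlinarith
  have hc1 : |c| ≤ 2 := by
    apply abs_le_of_sq_le_sq _ (by norm_num)
    nlinarith
  have fin : ∀ (t : ℤ) (K : ℝ), (t : ℝ) = c * K → |K| ≤ ρ ^ 2 → |(t : ℝ)| ≤ 2 * ρ ^ 2 := by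
    intro t K ht hK
    rw [ht, abs_mul]
    exact mul_le_mul hc1 hK (abs_nonneg _) (by norm_num)
  refine ⟨t1, t2, t3, ht3, fin t1 K1 T1 c1, fin t2 K2 T2 c2, fin t3 K3 T3 c3, ?_⟩
  apply ext2
  · simp only [PiLp.add_apply, PiLp.smul_apply, smul_eq_mul, PiLp.zero_apply]
    rw [T1, T2, T3]
    linear_combination c * hrel0
  · simp only [PiLp.add_apply, PiLp.smul_apply, smul_eq_mul, PiLp.zero_apply]
    rw [T1, T2, T3]
    linear_combination c * hrel1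

end Pool.Agent.RCX
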