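import Pool.Agent.RCX.St

/-!
# Robust convexity of integral point sets: module ST5
-/

set_option autoImplicit false

open scoped InnerProductSpace

namespace Pool.Agent.RCX

namespace ST5

theorem binet (x y u v : Pl) :
    cr x y * cr u v = ⟪x, u⟫_ℝ * ⟪y, v⟫_ℝ - ⟪x, v⟫_ℝ * ⟪y, u⟫_ℝ := by
  rw [inner_eq, inner_eq, inner_eq, inner_eq, cr, cr]
  ring

theorem comb (u v w : Pl) (h : cr u v ≠ 0) :
    w = (cr w v / cr u v) • u + (cr u w / cr u v) • v := by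
  apply ext2
  · rw [PiLp.add_apply, PiLp.smul_apply, PiLp.smul_apply, smul_eq_mul, smul_eq_mul,
      div_mul_eq_mul_div, div_mul_eq_mul_div, ← add_div, eq_div_iff h]
    simp only [cr]
    ring
  · rw [PiLp.add_apply, PiLp.smul_apply, PiLp.smul_apply, smul_eq_mul, smul_eq_mul,
      div_mul_eq_mul_div, div_mul_eq_mul_div, ← add_div, eq_div_iff h]
    simp only [cr]
    ring

theorem dist_sq (x y : Pl) : dist x y ^ 2 = ‖y - x‖ ^ 2 := by
  rw [dist_comm, dist_eq_norm]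

theorem polar (a b p : Pl) : 2 * ⟪p - a, b - a⟫_ℝ =
    2 * dist a p * (dist a p - dist b p) + (dist a b ^ 2 - (dist a p - dist b p) ^ 2) := by
  have h1 := dist_sq a p
  have h2 := dist_sq b p
  have h3 := dist_sq a b
  rw [norm_sq] at h1 h2 h3
  rw [inner_eq]
  simp only [PiLp.sub_apply] at *
  nlinarith

theorem conic (h1 : t_EXA) {S : Finset Pl} {ρ : ℝ} (hS : Good S) {a b1 b2 b3 p : Pl}
    (ha : a ∈ S) (hb1 : b1 ∈ S) (hb2 : b2 ∈ S) (hb3 : b3 ∈ S) (hp : p ∈ S) (h01 : a ≠ b1)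
    (h02 : a ≠ b2) (h12 : b1 ≠ b2) (r1 : dist a b1 ≤ ρ) (r2 : dist a b2 ≤ ρ)
    (r3 : dist a b3 ≤ ρ) (hf : 3 * ρ ^ 4 < dist a p) {s t : ℝ}
    (h3 : b3 - a = s • (b1 - a) + t • (b2 - a)) :
    (dist a b1 ^ 2 - (dist a p - dist b1 p) ^ 2) * (s * (s - 1)) +
      2 * (⟪b1 - a, b2 - a⟫_ℝ - (dist a p - dist b1 p) * (dist a p - dist b2 p)) * (s * t) +
      (dist a b2 ^ 2 - (dist a p - dist b2 p) ^ 2) * (t * (t - 1)) = 0 := by
  obtain ⟨e1, e2⟩ := h1 S ρ hS a ha b1 hb1 b2 hb2 b3 hb3 p hp h01 h02 h12 r1 r2 r3 hf s t h3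
  have e3 : dist a b3 ^ 2 = s ^ 2 * dist a b1 ^ 2 + 2 * s * t * ⟪b1 - a, b2 - a⟫_ℝ +
      t ^ 2 * dist a b2 ^ 2 := by
    rw [dist_sq, dist_sq, dist_sq, h3, norm_sq, norm_sq, norm_sq, inner_eq]
    simp only [PiLp.add_apply, PiLp.smul_apply, smul_eq_mul]
    ring
  rw [e1, e3] at e2
  linear_combination e2

theorem small {S : Finset Pl} (hS : Good S) {a b p : Pl} (ha : a ∈ S) (hb : b ∈ S) (hp : p ∈ S)
    (hab : a ≠ b) (hap : a ≠ p) (hbp : b ≠ p) :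
    0 < dist a b ^ 2 - (dist a p - dist b p) ^ 2 := by
  have t1 : dist a p < dist a b + dist b p := strict_tri (hS.1 a ha b hb p hp hab hap hbp)
  have t2 : dist b p < dist b a + dist a p :=
    strict_tri (hS.1 b hb a ha p hp hab.symm hbp hap)
  rw [dist_comm b a] at t2
  have t3 : (dist a b - (dist a p - dist b p)) * (dist a b + (dist a p - dist b p)) > 0 :=
    mul_pos (by linarith) (by linarith)
  nlinarith

end ST5

open ST5 in
theorem ST5_thm (h1 : t_EXA) (h2 : t_CON) : t_ST5 := by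
  intro S ρ hS a ha b1 hb1 b2 hb2 b3 hb3 b4 hb4 a1 a2 a3 a4 c12 c13 c14 c23 c24 c34 r1 r2 r3 r4
    p1 hp1 p2 hp2 p3 hp3 q12 q13 q23 f1 f2 f3
  have hρ : 1 ≤ ρ := le_trans (hS.one_le ha hb1 a1) r1
  have hρ4 : ρ ≤ 3 * ρ ^ 4 := by
    have h3 : ρ ^ 1 ≤ ρ ^ 4 := pow_le_pow_right₀ hρ (by norm_num)
    rw [pow_one] at h3
    nlinarith
  have hD : cr (b1 - a) (b2 - a) ≠ 0 := hS.cr_ne ha hb1 hb2 a1 a2 c12
  have e3 := comb (b1 - a) (b2 - a) (b3 - a) hD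
  have e4 := comb (b1 - a) (b2 - a) (b4 - a) hD
  set D := cr (b1 - a) (b2 - a) with hDd
  set s3 := cr (b3 - a) (b2 - a) / D with hs3
  set t3 := cr (b1 - a) (b3 - a) / D with ht3
  set s4 := cr (b4 - a) (b2 - a) / D with hs4
  set t4 := cr (b1 - a) (b4 - a) / D with ht4
  have ht3n : t3 ≠ 0 := div_ne_zero (hS.cr_ne ha hb1 hb3 a1 a3 c13) hD
  have ht4n : t4 ≠ 0 := div_ne_zero (hS.cr_ne ha hb1 hb4 a1 a4 c14) hD
  have hst : s3 * (t4 - 1) - s4 * (t3 - 1) ≠ 0 := by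
    have h := hS.cr_ne hb2 hb3 hb4 c23 c24 c34
    have h5 : cr (b3 - b2) (b4 - b2) = (s3 * (t4 - 1) - s4 * (t3 - 1)) * D := by
      have e5 : b3 - b2 = s3 • (b1 - a) + (t3 - 1) • (b2 - a) := by
        have : b3 - b2 = (b3 - a) - (b2 - a) := by abel
        rw [this, e3]
        module
      have e6 : b4 - b2 = s4 • (b1 - a) + (t4 - 1) • (b2 - a) := by
        have : b4 - b2 = (b4 - a) - (b2 - a) := by abel
        rw [this, e4]
        module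
      rw [e5, e6, hDd]
      simp only [cr, PiLp.add_apply, PiLp.smul_apply, smul_eq_mul]
      ring
    intro h0
    rw [h0, zero_mul] at h5
    exact h h5
  have hG : 0 < dist a b1 ^ 2 * dist a b2 ^ 2 - ⟪b1 - a, b2 - a⟫_ℝ ^ 2 := by
    rw [dist_sq, dist_sq, ← cr_sq]
    positivity
  have hne : ∀ p ∈ S, 3 * ρ ^ 4 < dist a p → a ≠ p ∧ b1 ≠ p ∧ b2 ≠ p := by
    intro p _ hf
    refine ⟨?_, ?_, ?_⟩
    · rintro rfl
      rw [dist_self] at hf
      linarith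
    · rintro rfl
      linarith
    · rintro rfl
      linarith
  have hpos : ∀ p ∈ S, 3 * ρ ^ 4 < dist a p → 0 < dist a b1 ^ 2 - (dist a p - dist b1 p) ^ 2 := by
    intro p hp hf
    obtain ⟨n1, n2, _⟩ := hne p hp hf
    exact small hS ha hb1 hp a1 n1 n2
  have key : ∀ p ∈ S, ∀ q ∈ S, 3 * ρ ^ 4 < dist a p → 3 * ρ ^ 4 < dist a q →
      ∃ l : ℝ, ⟪p - q, b1 - a⟫_ℝ = l * (dist a p - dist b1 p) ∧
        ⟪p - q, b2 - a⟫_ℝ = l * (dist a p - dist b2 p) := by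
    intro p hp q hq fp fq
    have hcon := h2 (dist a b1 ^ 2) (⟪b1 - a, b2 - a⟫_ℝ) (dist a b2 ^ 2)
      (dist a p - dist b1 p) (dist a p - dist b2 p) (dist a q - dist b1 q) (dist a q - dist b2 q)
      s3 t3 s4 t4 hG (hpos p hp fp) (hpos q hq fq) ht3n ht4n hst
      (conic h1 hS ha hb1 hb2 hb3 hp a1 a2 c12 r1 r2 r3 fp e3)
      (conic h1 hS ha hb1 hb2 hb4 hp a1 a2 c12 r1 r2 r4 fp e4)
      (conic h1 hS ha hb1 hb2 hb3 hq a1 a2 c12 r1 r2 r3 fq e3)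
      (conic h1 hS ha hb1 hb2 hb4 hq a1 a2 c12 r1 r2 r4 fq e4)
    have i1 := polar a b1 p
    have i2 := polar a b2 p
    have j1 := polar a b1 q
    have j2 := polar a b2 q
    have hs1 : ⟪p - q, b1 - a⟫_ℝ = ⟪p - a, b1 - a⟫_ℝ - ⟪q - a, b1 - a⟫_ℝ := by
      rw [← inner_sub_left]
      congr 1
      abel
    have hs2 : ⟪p - q, b2 - a⟫_ℝ = ⟪p - a, b2 - a⟫_ℝ - ⟪q - a, b2 - a⟫_ℝ := by
      rw [← inner_sub_left]
      congr 1
      abel
    rcases hcon with ⟨k1, k2⟩ | ⟨k1, k2⟩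
    · refine ⟨dist a p - dist a q, ?_, ?_⟩
      · rw [hs1]
        rw [← k1] at j1
        linear_combination (1 / 2 : ℝ) * i1 - (1 / 2 : ℝ) * j1
      · rw [hs2]
        rw [← k2] at j2
        linear_combination (1 / 2 : ℝ) * i2 - (1 / 2 : ℝ) * j2
    · have k1' : dist a q - dist b1 q = -(dist a p - dist b1 p) := by rw [k1, neg_neg]
      have k2' : dist a q - dist b2 q = -(dist a p - dist b2 p) := by rw [k2, neg_neg]
      refine ⟨dist a p + dist a q, ?_, ?_⟩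
      · rw [hs1]
        rw [k1'] at j1
        linear_combination (1 / 2 : ℝ) * i1 - (1 / 2 : ℝ) * j1
      · rw [hs2]
        rw [k2'] at j2
        linear_combination (1 / 2 : ℝ) * i2 - (1 / 2 : ℝ) * j2
  obtain ⟨l, l1, l2⟩ := key p1 hp1 p2 hp2 f1 f2
  obtain ⟨m, m1, m2⟩ := key p1 hp1 p3 hp3 f1 f3
  have hb := binet (p1 - p2) (p1 - p3) (b1 - a) (b2 - a)
  rw [l1, l2, m1, m2] at hb
  have hz : cr (p1 - p2) (p1 - p3) * D = 0 := by
    rw [hb]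
    ring
  have hz2 : cr (p1 - p2) (p1 - p3) = 0 := (mul_eq_zero.1 hz).resolve_right hD
  have hz3 : cr (p2 - p1) (p3 - p1) = cr (p1 - p2) (p1 - p3) := by
    simp only [cr, PiLp.sub_apply]
    ring
  exact hS.cr_ne hp1 hp2 hp3 q12 q13 q23 (hz3.trans hz2)

end Pool.Agent.RCX
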