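import Pool.Agent.RCX.Defs

/-!
# Coordinates in the plane
-/

set_option autoImplicit false

open scoped InnerProductSpace

namespace Pool.Agent.RCX

theorem inner_eq (u v : Pl) : ⟪u, v⟫_ℝ = u 0 * v 0 + u 1 * v 1 := by
  simp [PiLp.inner_apply, Fin.sum_univ_two]
  ring

theorem norm_sq (u : Pl) : ‖u‖ ^ 2 = u 0 ^ 2 + u 1 ^ 2 := by
  rw [← real_inner_self_eq_norm_sq, inner_eq]
  ring

theorem cr_sq (u v : Pl) : cr u v ^ 2 = ‖u‖ ^ 2 * ‖v‖ ^ 2 - ⟪u, v⟫_ℝ ^ 2 := by
  rw [norm_sq, norm_sq, inner_eq, cr]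
  ring

theorem abs_cr_le (u v : Pl) : |cr u v| ≤ ‖u‖ * ‖v‖ := by
  have h : cr u v ^ 2 ≤ (‖u‖ * ‖v‖) ^ 2 := by
    rw [cr_sq, mul_pow]
    nlinarith [sq_nonneg (⟪u, v⟫_ℝ)]
  exact abs_le_of_sq_le_sq h (by positivity)

theorem cr_swap (u v : Pl) : cr v u = - cr u v := by
  simp only [cr]; ring

theorem ext2 {u v : Pl} (h0 : u 0 = v 0) (h1 : u 1 = v 1) : u = v := by
  ext i
  fin_cases i
  · exact h0
  · exact h1

/-- if the determinant vanishes, the three points are collinear -/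
theorem collinear_of_cr {a b c : Pl} (h : cr (b - a) (c - a) = 0) :
    Collinear ℝ ({a, b, c} : Set Pl) := by
  rw [collinear_iff_of_mem (p₀ := a) (by simp)]
  by_cases hb : b = a
  · subst hb
    refine ⟨c - b, ?_⟩
    intro p hp
    rcases hp with rfl | rfl | hp
    · exact ⟨0, by simp⟩
    · exact ⟨0, by simp⟩
    · rw [Set.mem_singleton_iff] at hp
      subst hp
      exact ⟨1, by simp⟩
  · refine ⟨b - a, ?_⟩
    intro p hp
    rcases hp with rfl | rfl | hp
    · exact ⟨0, by simp⟩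
    · exact ⟨1, by simp⟩
    · rw [Set.mem_singleton_iff] at hp
      subst hp
      have hba : 0 < ‖b - a‖ ^ 2 := by
        have : 0 < ‖b - a‖ := norm_pos_iff.2 (sub_ne_zero.2 hb)
        positivity
      rw [norm_sq] at hba
      rw [cr] at h
      refine ⟨((b - a) 0 * (p - a) 0 + (b - a) 1 * (p - a) 1) / ((b - a) 0 ^ 2 + (b - a) 1 ^ 2),
        ?_⟩
      have hne := hba.ne'
      have key : p - a = (((b - a) 0 * (p - a) 0 + (b - a) 1 * (p - a) 1) /
          ((b - a) 0 ^ 2 + (b - a) 1 ^ 2)) • (b - a) := by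
        apply ext2
        · rw [PiLp.smul_apply, smul_eq_mul, div_mul_eq_mul_div, eq_div_iff hne]
          linear_combination (-(b - a) 1) * h
        · rw [PiLp.smul_apply, smul_eq_mul, div_mul_eq_mul_div, eq_div_iff hne]
          linear_combination ((b - a) 0) * h
      rw [vadd_eq_add, ← key, sub_add_cancel]

theorem cr_ne {a b c : Pl} (h : ¬ Collinear ℝ ({a, b, c} : Set Pl)) : cr (b - a) (c - a) ≠ 0 :=
  fun h0 => h (collinear_of_cr h0)

/-- three points of a good set have a nonzero determinant -/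
theorem Good.cr_ne {S : Finset Pl} (hS : Good S) {a b c : Pl} (ha : a ∈ S) (hb : b ∈ S)
    (hc : c ∈ S) (hab : a ≠ b) (hac : a ≠ c) (hbc : b ≠ c) : cr (b - a) (c - a) ≠ 0 :=
  RCX.cr_ne (hS.1 a ha b hb c hc hab hac hbc)

/-- distances are integers, as natural numbers -/
theorem Good.nat {S : Finset Pl} (hS : Good S) {a b : Pl} (ha : a ∈ S) (hb : b ∈ S) :
    ∃ n : ℕ, dist a b = (n : ℝ) := by
  obtain ⟨m, hm⟩ := hS.2 a ha b hb
  have h0 : (0 : ℝ) ≤ (m : ℝ) := by
    rw [← hm]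
    exact dist_nonneg
  have h1 : 0 ≤ m := by exact_mod_cast h0
  refine ⟨m.toNat, ?_⟩
  rw [hm]
  have : ((m.toNat : ℤ) : ℝ) = (m : ℝ) := by rw [Int.toNat_of_nonneg h1]
  rw [← this]
  norm_cast

theorem Good.subset {S T : Finset Pl} (hS : Good S) (h : T ⊆ S) : Good T :=
  ⟨fun a ha b hb c hc => hS.1 a (h ha) b (h hb) c (h hc), fun a ha b hb => hS.2 a (h ha) b (h hb)⟩

/-- distinct points have distance at least one -/
theorem Good.one_le {S : Finset Pl} (hS : Good S) {a b : Pl} (ha : a ∈ S) (hb : b ∈ S)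
    (hab : a ≠ b) : 1 ≤ dist a b := by
  obtain ⟨n, hn⟩ := hS.nat ha hb
  have : 0 < dist a b := dist_pos.2 hab
  rw [hn] at this ⊢
  have h1 : 0 < n := by exact_mod_cast this
  exact_mod_cast h1

/-- strict triangle inequality for three points that are not collinear -/
theorem strict_tri {a b c : Pl} (h : ¬ Collinear ℝ ({a, b, c} : Set Pl)) :
    dist a c < dist a b + dist b c := by
  by_contra hcon
  rw [not_lt] at hcon
  have h2 : dist a b + dist b c = dist a c := le_antisymm hcon (dist_triangle _ _ _)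
  exact h (dist_add_dist_eq_iff.1 h2).collinear

end Pool.Agent.RCX
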