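import Pool.Agent.RCX.Basic

/-!
# Robust convexity of integral point sets (MP_a57197_co): statements with proofs in words

RESULT.  S is a finite set in the plane, no three points collinear, all distances integers
(`Good S`).  `Thin w T`: every point of T is at distance at most w from a line with T on one side.
If S is split into m sets that are Thin w, then
(A) S splits into k sets in convex position for every k >= m (2 w^(2/3) + 1);
(B) if diam S > 2560 w^12, S splits into 2m sets in convex position;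
(C) S splits into 4m sets in convex position, or all but at most two points of S lie in a disc of
    radius 48 w^8;
(D) Q1 holds if and only if there is K such that every good S splits into K sets that are Thin w
    with w = (1/2) (diam S)^(1/8).

Plan.  TRI: a triangle with integer sides, all at least δ, has heights at least sqrt(δ/2).
CAR, KLG: a point x of T that is not an extreme point of T lies in a triangle of points of T, so
by TRI the disc of radius h = sqrt(δ/2) about x lies in the hull of T.  PEE: peeling off the extreme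
points lowers the thinness by h, so T splits into j convex sets if w < j h.  ST3: if a has two other
points of S at distance at most ρ, then S lies in the disc of radius 20 ρ^6 about a.  ST5: if a has
four other points of S at distance at most ρ, all but two points of S lie in the disc of radius
3 ρ^4 about a.  GRD: greedy colouring separates points at distance <= 2 w^2.
-/

set_option autoImplicit false

open scoped InnerProductSpace

namespace Pool.Agent.RCX

/-- TRI (60 lines).  Integer triangles have large heights.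
Proof.  x = dist a b, y = dist a c, z = dist b c are natural numbers (`Good.nat`) and by `strict_tri`
(three times; the hypothesis of `hS.1` for the permuted triples) x+y >= z+1, y+z >= x+1, z+x >= y+1.
With u = b-a, v = c-a: 2<u,v> = x²+y²-z², so by `cr_sq` 4 cr(u,v)² = 4x²y²-(x²+y²-z²)²
= (x+y-z)(x+y+z)(z+x-y)(z-x+y).  By symmetry let x <= y.  Then x+y+z >= 2z (if z >= y this is
x+y >= z, if y >= z clear) and z-x+y >= z.  If y >= z: x+y-z >= x >= δ and z+x-y >= 1; if z > y: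
z+x-y >= x >= δ and x+y-z >= 1; so (x+y-z)(z+x-y) >= δ in both cases (all factors are >= 1; if
δ <= 0 the claim is trivial).  Hence 4 cr² >= 2 z² δ. -/
def t_TRI : Prop := ∀ (S : Finset Pl), Good S → ∀ a ∈ S, ∀ b ∈ S, ∀ c ∈ S,
  a ≠ b → a ≠ c → b ≠ c → ∀ δ : ℝ, δ ≤ dist a b → δ ≤ dist a c → δ ≤ dist b c →
    δ * dist b c ^ 2 ≤ 2 * cr (b - a) (c - a) ^ 2

/-- KLG (80 lines).  If 0 lies inside the triangle p, q, r and its distance from the three side
lines is at least h, then in every direction n one of p, q, r reaches at least h.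
Proof.  Let D = cr p q / γ, not zero.  Taking cr of the relation with q and with p gives
cr q r = α D, cr r p = β D (and cr p q = γ D).  Let σ = 1 or -1 be the sign of D, and
A = σ (cr q r - h cr n (r-q)), B = σ (cr r p - h cr n (p-r)), C = σ (cr p q - h cr n (q-p)).
Since |cr n v| <= ‖v‖ (`abs_cr_le`) and |cr q r| >= h ‖q-r‖ (from the squares) and
σ cr q r = |cr q r|, we get A >= 0, likewise B, C >= 0.  Also A+B+C = (α+β+γ)|D| > 0 and
A p + B q + C r = (A+B+C) h n (coordinates: both components are polynomial identities, from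
cr(q,r) p + cr(r,p) q + cr(p,q) r = 0 and cr(x,y) z + cr(y,z) x + cr(z,x) y = 0).  The inner product
with n gives A<p,n> + B<q,n> + C<r,n> = (A+B+C) h, but the left side is < (A+B+C) h.
(All of it can be done in coordinates p 0, p 1, .. with `inner_eq`, `norm_sq`; n0² + n1² = 1.) -/
def t_KLG : Prop := ∀ (p q r n : Pl) (α β γ h : ℝ), 0 < α → 0 < β → 0 < γ →
  α • p + β • q + γ • r = 0 → cr p q ≠ 0 → 0 ≤ h →
  h ^ 2 * dist q r ^ 2 ≤ cr q r ^ 2 → h ^ 2 * dist r p ^ 2 ≤ cr r p ^ 2 →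
  h ^ 2 * dist p q ^ 2 ≤ cr p q ^ 2 → ‖n‖ = 1 →
  ⟪p, n⟫_ℝ < h → ⟪q, n⟫_ℝ < h → ⟪r, n⟫_ℝ < h → False

/-- CAR (80 lines).  A point in the hull of the others lies strictly inside a triangle.
Proof.  `convexHull_eq_union`: x is in the hull of an affinely independent finite set t inside
T minus x; t has at most 3 elements (`AffineIndependent.card_le_finrank_succ`, dimension 2).  Write
x as a convex combination of the elements of t with non-negative weights.  If at most two weights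
are positive, x equals a point of t or lies on a segment between two points of t, so three points
of T are collinear: impossible.  So t = {a, b, c} with three positive weights of sum one, which is
the relation; cr (a-x) (b-x) = 0 would make x, a, b collinear (`collinear_of_cr`). -/
def t_CAR : Prop := ∀ (T : Set Pl) (x : Pl),
  (∀ a ∈ T, ∀ b ∈ T, ∀ c ∈ T, a ≠ b → a ≠ c → b ≠ c → ¬ Collinear ℝ ({a, b, c} : Set Pl)) →
  x ∈ T → x ∈ convexHull ℝ (T \ {x}) →
  ∃ a ∈ T, ∃ b ∈ T, ∃ c ∈ T, a ≠ x ∧ b ≠ x ∧ c ≠ x ∧ a ≠ b ∧ b ≠ c ∧ c ≠ a ∧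
    ∃ α β γ : ℝ, 0 < α ∧ 0 < β ∧ 0 < γ ∧
      α • (a - x) + β • (b - x) + γ • (c - x) = 0 ∧ cr (a - x) (b - x) ≠ 0

/-- DEP (60 lines; from TRI, KLG, CAR).  Points that are not extreme are deep.
Proof.  CAR gives a, b, c and the relation.  With p = a-x, q = b-x, r = c-x: dist q r = dist b c
etc., and TRI for the triple (x, b, c) with δ = 2h² gives 2h² dist b c² <= 2 cr q r², and the same
for the other two pairs.  If all <y-x,n> < h for y in T, KLG gives a contradiction. -/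
def t_DEP : Prop := ∀ (T : Finset Pl) (h : ℝ), Good T → 0 ≤ h →
  (∀ x ∈ T, ∀ y ∈ T, x ≠ y → 2 * h ^ 2 ≤ dist x y) →
  ∀ x ∈ T, x ∈ convexHull ℝ ((T : Set Pl) \ {x}) →
  ∀ n : Pl, ‖n‖ = 1 → ∃ y ∈ T, h ≤ ⟪y - x, n⟫_ℝ

/-- PEE (100 lines; from DEP).  Peeling.  Induction on j.  Let E be the set of x in T that are not
in the hull of T minus x; E is in convex position (hull of a part of E without x is inside the hull
of T minus x; see `branch_ind`, `small_ind` in Results/MP_a57197_co/ShortDistance.lean for the form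
of `ConvexIndependent`).  Let T' = T minus E.  For q in T' let n be the direction of `Thin w T`.
Every x in T' is not extreme, so by DEP some y in T has <y-x,n> >= h, so
<x-q,n> = <y-q,n> - <y-x,n> <= w-h: T' is Thin (w-h).  If j = 0 then w < h, and T' is empty (take
x = q: 0 <= w-h), so T = E.  If j > 0 then w-h < j h; T' splits into j convex sets by induction
(if T' is empty too), and T into j+1 (the class of E gets the new colour). -/
def t_PEE : Prop := ∀ (j : ℕ) (T : Finset Pl) (h w : ℝ), Good T → 0 ≤ h →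
  (∀ x ∈ T, ∀ y ∈ T, x ≠ y → 2 * h ^ 2 ≤ dist x y) →
  Thin w (T : Set Pl) → w < (j + 1) * h → Cp (j + 1) T

/-- GRD (50 lines).  Greedy colouring.  Induction on T: remove x, colour the rest, give x a
colour that none of its at most k neighbours in T has. -/
def t_GRD : Prop := ∀ (k : ℕ) (T : Finset Pl) (R : Pl → Pl → Prop), (∀ x y, R x y → R y x) →
  (∀ x ∈ T, ∀ U : Finset Pl, U ⊆ T → (∀ y ∈ U, y ≠ x ∧ R x y) → U.card ≤ k) →
  ∃ g : Pl → Fin (k + 1), ∀ x ∈ T, ∀ y ∈ T, x ≠ y → R x y → g x ≠ g y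

/-- MRG (50 lines).  Colourings can be combined and enlarged.  First part: for each i choose
the colouring g_i of the class {x in S, f x = i}; the colour of x is the pair (f x, g_(f x) x) in
Fin m x Fin j, `finProdFinEquiv`; a class of the new colouring is a class of g_i.  Second part:
`Fin.castLE`; the classes are the old ones or empty.  (ConvexIndependent of a family indexed by a
subtype: transport along the obvious embedding, or unfold as in `small_ind`.) -/
def t_MRG : Prop :=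
  (∀ (S : Finset Pl) (m j : ℕ) (f : Pl → Fin m),
    (∀ i : Fin m, ∀ T : Finset Pl, (∀ x, x ∈ T ↔ x ∈ S ∧ f x = i) → Cp j T) → Cp (m * j) S) ∧
  (∀ (S : Finset Pl) (k l : ℕ), k ≤ l → Cp k S → Cp l S)

/-- ST3 (120 lines).  Two close points: S is bounded.
Proof.  If p is one of a, b, c: dist a p <= ρ <= 20 ρ^6 (ρ >= 1 by `Good.one_le`).  Otherwise let
D, x, y, z be the integers dist a p, dist p b, dist p c, dist b c, let s = dist a b, t = dist a c,
h = D-x, k = D-y (integers), β = s²-h², γ = t²-k² (both > 0: |h| < s, |k| < t by `strict_tri`, and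
0 < β <= ρ², 0 < γ <= ρ²), E = s²+t²-z² = 2<b-a,c-a> (so |E| <= 2ρ²).  With u = p-a:
2<u,b-a> = D²+s²-x² = 2Dh+β, 2<u,c-a> = 2Dk+γ.  Three vectors u, b-a, c-a of the plane have Gram
determinant 0; four times this is  D² M - D L - G = 0  with the integers
M = 4s²t²-E²-4(t²h²-Ehk+s²k²), L = 4t²hβ-2E(hγ+kβ)+4s²kγ, G = t²β²-Eβγ+s²γ².
(Direct: u = p-a, all in coordinates; or 4<u,u> (|b-a|²|c-a|²-<b-a,c-a>²) = 4|<u,b-a>(c-a) -
<u,c-a>(b-a)|².)  4s²t²-E² = 4 cr² > 0, so G > 0 (positive definite form at (β,γ) /= 0: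
G = |β(c-a) - γ(b-a)|², not 0 as b-a, c-a are independent).  |L| <= 16ρ^5, G <= 4ρ^6.
If M /= 0 then D² <= |D² M| <= D|L|+G, so D <= 16ρ^5+G/D, and D >= ρ gives D <= 20ρ^5 <= 20ρ^6
(if D < ρ nothing to do).  If M = 0 then D|L| = G > 0, so |L| >= 1 and D <= G <= 4ρ^6. -/
def t_ST3 : Prop := ∀ (S : Finset Pl) (ρ : ℝ), Good S → ∀ a ∈ S, ∀ b ∈ S, ∀ c ∈ S,
  a ≠ b → a ≠ c → b ≠ c → dist a b ≤ ρ → dist a c ≤ ρ → ∀ p ∈ S, dist a p ≤ 20 * ρ ^ 6

/-- IRL (120 lines).  Three vectors of the plane with integral Gram matrix have an integral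
relation with small coefficients.
Proof.  k1 = cr b2 b3, k2 = cr b3 b1, k3 = cr b1 b2 satisfy k1 b1 + k2 b2 + k3 b3 = 0, and
4 ki kj is an integer N_ij: k_i k_j is a polynomial in the inner products by
cr(x,y) cr(z,w) = <x,z><y,w> - <x,w><y,z>, with all 2<.,.> integers.  So x_i = 4 k_i k3 are
integers with x1 b1 + x2 b2 + x3 b3 = 0, x3 > 0.  Divide by g = gcd(x1,x2,x3): t_i = x_i / g, and
let m1 t1 + m2 t2 + m3 t3 = 1 (Bezout).  t_i = c k_i with c = 4 k3/g, so with θ = 4/c² > 0: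
θ t_i t_j = 4 k_i k_j = N_ij, and θ = sum m_i m_j θ t_i t_j = sum m_i m_j N_ij is an integer, so
θ >= 1, c² <= 4, t_i² <= 4 k_i² <= 4 ρ^4 (`abs_cr_le`), |t_i| <= 2 ρ². -/
def t_IRL : Prop := ∀ (b1 b2 b3 : Pl) (ρ : ℝ),
  (∃ n : ℤ, 2 * ⟪b1, b1⟫_ℝ = n) → (∃ n : ℤ, 2 * ⟪b2, b2⟫_ℝ = n) → (∃ n : ℤ, 2 * ⟪b3, b3⟫_ℝ = n) →
  (∃ n : ℤ, 2 * ⟪b1, b2⟫_ℝ = n) → (∃ n : ℤ, 2 * ⟪b2, b3⟫_ℝ = n) → (∃ n : ℤ, 2 * ⟪b3, b1⟫_ℝ = n) →
  cr b1 b2 ≠ 0 → ‖b1‖ ≤ ρ → ‖b2‖ ≤ ρ → ‖b3‖ ≤ ρ →
  ∃ t1 t2 t3 : ℤ, t3 ≠ 0 ∧ |(t1 : ℝ)| ≤ 2 * ρ ^ 2 ∧ |(t2 : ℝ)| ≤ 2 * ρ ^ 2 ∧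
    |(t3 : ℝ)| ≤ 2 * ρ ^ 2 ∧ (t1 : ℝ) • b1 + (t2 : ℝ) • b2 + (t3 : ℝ) • b3 = 0

/-- EXA (100 lines; from IRL).  For a far point p the differences of distances depend linearly on
the near points.
Proof.  b_i - a =: v_i; 2<v_i,v_j> = |v_i|²+|v_j|²-|b_i-b_j|² is an integer.  IRL gives t1, t2, t3.
Let D = dist a p, h_i = D - dist b_i p (integers), β_i = dist a b_i² - h_i², so 0 <= β_i <= ρ²
(|h_i| <= dist a b_i), and 2<p-a,v_i> = D²+|v_i|²-(D-h_i)² = 2D h_i + β_i.  The relation gives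
2D (t1 h1+t2 h2+t3 h3) = -(t1 β1+t2 β2+t3 β3), the right side is at most 6ρ^4 < 2D in absolute
value, so the integer t1 h1+t2 h2+t3 h3 is 0, and t1 β1+t2 β2+t3 β3 = 0.  From
v3 = s v1 + t v2 and cr v1 v2 /= 0: t1 = -t3 s, t2 = -t3 t; divide by t3. -/
def t_EXA : Prop := ∀ (S : Finset Pl) (ρ : ℝ), Good S →
  ∀ a ∈ S, ∀ b1 ∈ S, ∀ b2 ∈ S, ∀ b3 ∈ S, ∀ p ∈ S, a ≠ b1 → a ≠ b2 → b1 ≠ b2 →
  dist a b1 ≤ ρ → dist a b2 ≤ ρ → dist a b3 ≤ ρ → 3 * ρ ^ 4 < dist a p →
  ∀ s t : ℝ, b3 - a = s • (b1 - a) + t • (b2 - a) →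
    dist a p - dist b3 p = s * (dist a p - dist b1 p) + t * (dist a p - dist b2 p) ∧
    dist a b3 ^ 2 - (dist a p - dist b3 p) ^ 2 =
      s * (dist a b1 ^ 2 - (dist a p - dist b1 p) ^ 2) +
      t * (dist a b2 ^ 2 - (dist a p - dist b2 p) ^ 2)

/-- CON (70 lines).  Two conics of the special shape through five points coincide (algebra).
Proof.  Put x = g11-h1², z = 2(g12-h1h2), y = g22-h2² and x', z', y' with k1, k2.  The hypotheses say
x s(s-1) + z s t + y t(t-1) = 0 for (s,t) = (s3,t3), (s4,t4), and the same for x', z', y'.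
Then Z = x'z - xz', Y = x'y - xy' satisfy Z s t + Y t(t-1) = 0 for both (s,t); the determinant
s3 t3 t4(t4-1) - s4 t4 t3(t3-1) = t3 t4 (s3(t4-1) - s4(t3-1)) is not zero, so Z = Y = 0.
Let l = x/x' > 0.  Then g11-h1² = l(g11-k1²), g12-h1h2 = l(g12-k1k2), g22-h2² = l(g22-k2²), so
(1-l)g11 = h1²-l k1² etc. and (1-l)²(g11 g22-g12²) = -l (h1k2-h2k1)², so l = 1, and
h1² = k1², h1h2 = k1k2, h2² = k2². -/
def t_CON : Prop := ∀ (g11 g12 g22 h1 h2 k1 k2 s3 t3 s4 t4 : ℝ),
  0 < g11 * g22 - g12 ^ 2 → 0 < g11 - h1 ^ 2 → 0 < g11 - k1 ^ 2 →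
  t3 ≠ 0 → t4 ≠ 0 → s3 * (t4 - 1) - s4 * (t3 - 1) ≠ 0 →
  (g11 - h1 ^ 2) * (s3 * (s3 - 1)) + 2 * (g12 - h1 * h2) * (s3 * t3) +
    (g22 - h2 ^ 2) * (t3 * (t3 - 1)) = 0 →
  (g11 - h1 ^ 2) * (s4 * (s4 - 1)) + 2 * (g12 - h1 * h2) * (s4 * t4) +
    (g22 - h2 ^ 2) * (t4 * (t4 - 1)) = 0 →
  (g11 - k1 ^ 2) * (s3 * (s3 - 1)) + 2 * (g12 - k1 * k2) * (s3 * t3) +
    (g22 - k2 ^ 2) * (t3 * (t3 - 1)) = 0 →
  (g11 - k1 ^ 2) * (s4 * (s4 - 1)) + 2 * (g12 - k1 * k2) * (s4 * t4) +
    (g22 - k2 ^ 2) * (t4 * (t4 - 1)) = 0 →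
  (h1 = k1 ∧ h2 = k2) ∨ (h1 = -k1 ∧ h2 = -k2)

/-- ST5 (150 lines; from EXA, CON).  Four close points: all but two points are bounded.
Proof.  Suppose p1, p2, p3 in S are distinct with dist a p_i > 3ρ^4 (note ρ >= 1, so they are not
among a, b1..b4).  v_i = b_i - a.  v1, v2 are independent (`Good.cr_ne`), so
v3 = s3 v1 + t3 v2, v4 = s4 v1 + t4 v2.  t3 /= 0, t4 /= 0 (a, b1, b3 resp. a, b1, b4 not
collinear) and s3(t4-1) - s4(t3-1) /= 0 (b2, b3, b4 not collinear:
cr (v3-v2) (v4-v2) = (s3(t4-1) - s4(t3-1)) cr v1 v2).  For a far point p let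
h_i = dist a p - dist b_i p, β_i = |v_i|² - h_i².  By EXA (with (b1,b2,b3) and (b1,b2,b4))
h3 = s3h1+t3h2, β3 = s3β1+t3β2; inserting |v3|² = s3²|v1|²+2s3t3<v1,v2>+t3²|v2|² this is the first
equation of CON with g11 = |v1|², g12 = <v1,v2>, g22 = |v2|²; the same for 4.
g11 g22 - g12² = cr v1 v2² > 0 (`cr_sq`) and g11-h1² = β1 > 0 (`strict_tri`: |h1| < dist a b1).
So by CON for every two of the far points the vectors (h1,h2) agree up to sign; then β1, β2
agree.  2<p-a,v_i> = 2D h_i + β_i (i = 1, 2; D = dist a p).  So for far points p, q with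
(h1,h2)(q) = ε (h1,h2)(p): <p-q,v_i> = (D_p - ε D_q) h_i for i = 1, 2.  Hence for p = p1, q = p2 and
p3: the vectors p1-p2 and p1-p3 are both multiples of the vector v0 with <v0,v_i> = h_i(p1), so
cr (p2-p1) (p3-p1) = 0, against `Good.cr_ne`.  (Without v0:
<x,v1> h2 = <x,v2> h1 for x = p1-p2, p1-p3 and (h1,h2) /= 0; if (h1,h2) = 0 then both vectors are
orthogonal to v1 and v2, so zero.) -/
def t_ST5 : Prop := ∀ (S : Finset Pl) (ρ : ℝ), Good S → ∀ a ∈ S, ∀ b1 ∈ S, ∀ b2 ∈ S, ∀ b3 ∈ S,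
  ∀ b4 ∈ S, a ≠ b1 → a ≠ b2 → a ≠ b3 → a ≠ b4 → b1 ≠ b2 → b1 ≠ b3 → b1 ≠ b4 → b2 ≠ b3 →
  b2 ≠ b4 → b3 ≠ b4 → dist a b1 ≤ ρ → dist a b2 ≤ ρ → dist a b3 ≤ ρ → dist a b4 ≤ ρ →
  ∀ p1 ∈ S, ∀ p2 ∈ S, ∀ p3 ∈ S, p1 ≠ p2 → p1 ≠ p3 → p2 ≠ p3 →
  3 * ρ ^ 4 < dist a p1 → 3 * ρ ^ 4 < dist a p2 → 3 * ρ ^ 4 < dist a p3 → False

/-- SEP (60 lines).  A finite set in convex position is Thin w for every w >= 0.
Proof.  q in T is not in the hull K of T minus q (ConvexIndependent), K is compact and convex, so a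
continuous linear functional f has f x < f q for all x in K (`geometric_hahn_banach_compact_point`
or `geometric_hahn_banach_point_closed`; if T = {q} take any unit vector).  f = <.,v> by
`InnerProductSpace.toDual` (or in coordinates), v /= 0, n = v/‖v‖; then <x-q,n> <= 0 <= w. -/
def t_SEP : Prop := ∀ (S : Finset Pl) (k : ℕ) (f : Pl → Fin k) (i : Fin k) (w : ℝ), 0 ≤ w →
  ConvexIndependent ℝ (fun p : {x : Pl // x ∈ S ∧ f x = i} => (p : Pl)) →
  Thin w {x | x ∈ S ∧ f x = i}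

/-- CLS (80 lines; from PEE, GRD, MRG).  A thin class in which every point has at most k others at
distance at most d splits into (k+1)(j+1) convex sets if w < (j+1) h and 2h² <= all distances > d.
Proof.  GRD with R x y := dist x y <= d gives g; on each class of g the points have distance > d, so
>= 2h²; the class is a subset of T, so Thin w; PEE gives Cp (j+1); MRG. -/
def t_CLS : Prop := ∀ (k j : ℕ) (T : Finset Pl) (d h w : ℝ), Good T → 0 ≤ h →
  (∀ x ∈ T, ∀ U : Finset Pl, U ⊆ T → (∀ y ∈ U, y ≠ x ∧ dist x y ≤ d) → U.card ≤ k) →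
  (∀ x ∈ T, ∀ y ∈ T, d < dist x y → 2 * h ^ 2 ≤ dist x y) →
  Thin w (T : Set Pl) → w < (j + 1) * h → Cp ((k + 1) * (j + 1)) T

/-- `S` is split into `m` sets that are `Thin w` -/
def ThinSplit (m : ℕ) (w : ℝ) (S : Finset Pl) : Prop :=
  ∃ f : Pl → Fin m, ∀ i : Fin m, Thin w {x | x ∈ S ∧ f x = i}

/-- MAIN (helper65).  Note that m >= 1 as f exists.
(A) w = 0: all distances are >= 1, PEE with h = 1/2, j = 0 makes every class convex; k >= m.  w > 0:
if two points have distance δ <= w^(2/3), then S splits into 2δ convex sets (ShortDistance),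
2δ <= k.  Otherwise all distances are >= w^(2/3) = 2h², h = w^(1/3)/sqrt 2, and PEE with
j = floor(w/h) = floor(sqrt 2 w^(2/3)) splits every class into j+1 convex sets, m(j+1) <= k.
(B) If x in a class has two others y, z of the class at distance <= 2w², then ST3 with ρ = 2w² puts S
into the disc of radius 1280 w^12 about x, so diam S <= 2560 w^12.  Otherwise CLS with k = 1, d = 2w²,
h = sqrt((floor(2w²)+1)/2) > w, j = 0: distances > 2w² are integers, so >= 2h².
(C) The same with k = 3 and ST5: if x has four others in its class at distance <= 2w², at most two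
points of S have distance > 3(2w²)^4 = 48w^8 from x.
(D) From left to right: SEP with w = 0 or more.  From right to left: if no point of S has four
others, S has at most 4 points, and splits into 4 convex sets.  Otherwise let r be the least
natural number such that some a in S has four others at distance <= r; r >= 1.
By ST5 at most two points of S (set E) have distance > 3r^4 from a; S' = S minus E has diameter
<= 6r^4.  Let w = (1/2)(diam S')^(1/8), (2w²)^4 = 16 w^8 = diam S' / 16 < r^4, so 2w² < r.  Every point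
has at most 3 others at distance <= d := r - 1, distances > d are >= r = 2h², h = sqrt(r/2) > w.
By CLS (k = 3, j = 0) each of the K thin classes of S' splits into 4 convex sets, and E is one more
convex set (at most two points). -/
def t_MAIN : Prop :=
  (∀ (S : Finset Pl) (m : ℕ) (w : ℝ), Good S → 0 ≤ w → ThinSplit m w S →
    (∀ k : ℕ, (m : ℝ) * (2 * w ^ (2 / 3 : ℝ) + 1) ≤ k → Cp k S) ∧
    (2560 * w ^ 12 < Metric.diam (S : Set Pl) → Cp (2 * m) S) ∧
    (Cp (4 * m) S ∨ ∃ a ∈ S, ∃ E : Finset Pl, E.card ≤ 2 ∧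
      ∀ x ∈ S, x ∉ E → dist a x ≤ 48 * w ^ 8)) ∧
  ((∃ K : ℕ, ∀ S : Finset Pl, Good S → Cp K S) ↔
    ∃ K : ℕ, ∀ S : Finset Pl, Good S →
      ThinSplit K (Metric.diam (S : Set Pl) ^ (1 / 8 : ℝ) / 2) S)

end Pool.Agent.RCX
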