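import Pool.Agent.RCX.St
import Pool.Agent.Results.MP_a57197_co.ShortDistance

/-!
# Assembly of the main theorem from the modules
-/

set_option autoImplicit false

open scoped InnerProductSpace

namespace Pool.Agent.RCX.ASM

open Classical in
/-- a class of a colouring as a finite set -/
noncomputable def cls (S : Finset Pl) {m : ℕ} (f : Pl → Fin m) (i : Fin m) : Finset Pl :=
  S.filter (fun x => f x = i)

theorem mem_cls {S : Finset Pl} {m : ℕ} {f : Pl → Fin m} {i : Fin m} {x : Pl} :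
    x ∈ cls S f i ↔ x ∈ S ∧ f x = i := by
  rw [cls, Finset.mem_filter]

theorem cls_subset (S : Finset Pl) {m : ℕ} (f : Pl → Fin m) (i : Fin m) : cls S f i ⊆ S :=
  fun _ hx => (mem_cls.1 hx).1

theorem thin_cls {S : Finset Pl} {m : ℕ} {f : Pl → Fin m} {i : Fin m} {w : ℝ}
    (h : Thin w {x | x ∈ S ∧ f x = i}) : Thin w (cls S f i : Set Pl) := by
  have e : (cls S f i : Set Pl) = {x | x ∈ S ∧ f x = i} := by
    ext x
    simp [mem_cls]
  rw [e]
  exact h

/-- all classes split, so the whole set splits -/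
theorem glue (hm : t_MRG) {S : Finset Pl} {m j : ℕ} (f : Pl → Fin m)
    (h : ∀ i : Fin m, Cp j (cls S f i)) : Cp (m * j) S := by
  refine hm.1 S m j f ?_
  intro i T hT
  have e : T = cls S f i := by
    ext x
    rw [hT, mem_cls]
  rw [e]
  exact h i

/-- at most two points are in convex position -/
theorem cp_small {S : Finset Pl} (h : S.card ≤ 2) : Cp 1 S := by
  refine ⟨fun _ => 0, fun i => ?_⟩
  refine Results.MP_a57197_co.ShortDistance.small_ind ?_
  rintro x y z ⟨hx, -⟩ ⟨hy, -⟩ ⟨hz, -⟩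
  by_contra hcon
  push Not at hcon
  have h3 : ({x, y, z} : Finset Pl).card = 3 := Finset.card_eq_three.2
    ⟨x, y, z, hcon.1, hcon.2.1, hcon.2.2, rfl⟩
  have h4 : ({x, y, z} : Finset Pl) ⊆ S := by
    intro u hu
    simp only [Finset.mem_insert, Finset.mem_singleton] at hu
    rcases hu with rfl | rfl | rfl <;> assumption
  have := Finset.card_le_card h4
  omega

theorem partA (hp : t_PEE) (hm : t_MRG) {S : Finset Pl} {m : ℕ} {w : ℝ} (hS : Good S)
    (hw : 0 ≤ w) (hT : ThinSplit m w S) {k : ℕ}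
    (hk : (m : ℝ) * (2 * w ^ (2 / 3 : ℝ) + 1) ≤ k) : Cp k S := by
  obtain ⟨f, hf⟩ := hT
  have hm0 : 0 < m := Fin.pos (f 0)
  have hm1 : (1 : ℝ) ≤ m := by exact_mod_cast hm0
  have hw23 : 0 ≤ w ^ (2 / 3 : ℝ) := Real.rpow_nonneg hw _
  by_cases hclose : ∃ a ∈ S, ∃ b ∈ S, a ≠ b ∧ dist a b ≤ w ^ (2 / 3 : ℝ)
  · obtain ⟨a, ha, b, hb, hab, hd⟩ := hclose
    obtain ⟨d, hd2⟩ := hS.nat ha hb
    have h1 : Cp (2 * d) S :=
      Results.MP_a57197_co.ShortDistance.result d S hS.1 hS.2 ⟨a, ha, b, hb, hab, hd2.le⟩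
    refine hm.2 S (2 * d) k ?_ h1
    have h2 : ((2 * d : ℕ) : ℝ) ≤ k := by
      push_cast
      rw [← hd2]
      nlinarith
    exact_mod_cast h2
  · push Not at hclose
    rcases hw.eq_or_lt with hw0 | hw0
    · -- w = 0
      have h1 : ∀ i, Cp (0 + 1) (cls S f i) := by
        intro i
        refine hp 0 (cls S f i) (1 / 2) w (hS.subset (cls_subset S f i)) (by norm_num) ?_
          (thin_cls (hf i)) (by rw [← hw0]; norm_num)
        intro x hx y hy hxy
        have := hS.one_le (cls_subset S f i hx) (cls_subset S f i hy) hxy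
        linarith
      refine hm.2 S _ k ?_ (glue hm f h1)
      have h2 : ((m * (0 + 1) : ℕ) : ℝ) ≤ k := by
        push_cast
        nlinarith
      exact_mod_cast h2
    · -- w > 0
      set h : ℝ := w ^ (1 / 3 : ℝ) / √2 with hh
      have hw13 : 0 < w ^ (1 / 3 : ℝ) := Real.rpow_pos_of_pos hw0 _
      have hs2 : 0 < √(2 : ℝ) := by positivity
      have hsq : √(2 : ℝ) ^ 2 = 2 := Real.sq_sqrt (by norm_num)
      have hhp : 0 < h := by positivity
      have hpow : (w ^ (1 / 3 : ℝ)) ^ 2 = w ^ (2 / 3 : ℝ) := by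
        rw [← Real.rpow_natCast, ← Real.rpow_mul hw]
        norm_num
      have hpow3 : w ^ (1 / 3 : ℝ) * w ^ (2 / 3 : ℝ) = w := by
        rw [← Real.rpow_add hw0]
        norm_num
      have h2h : 2 * h ^ 2 = w ^ (2 / 3 : ℝ) := by
        rw [hh, div_pow, hsq, hpow]
        ring
      have hsle : √(2 : ℝ) ≤ 2 := by
        nlinarith
      set j : ℕ := ⌊√2 * w ^ (2 / 3 : ℝ)⌋₊ with hj
      have hj1 : √2 * w ^ (2 / 3 : ℝ) < (j : ℝ) + 1 := Nat.lt_floor_add_one _
      have hj2 : (j : ℝ) ≤ √2 * w ^ (2 / 3 : ℝ) := Nat.floor_le (by positivity)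
      have hwh : w < (j + 1) * h := by
        have e : √2 * w ^ (2 / 3 : ℝ) * h = w := by
          rw [hh]
          field_simp
          linear_combination hpow3
        calc w = √2 * w ^ (2 / 3 : ℝ) * h := e.symm
          _ < (j + 1) * h := mul_lt_mul_of_pos_right hj1 hhp
      have h1 : ∀ i, Cp (j + 1) (cls S f i) := by
        intro i
        refine hp j (cls S f i) h w (hS.subset (cls_subset S f i)) hhp.le ?_
          (thin_cls (hf i)) hwh
        intro x hx y hy hxy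
        rw [h2h]
        exact (hclose x (cls_subset S f i hx) y (cls_subset S f i hy) hxy).le
      refine hm.2 S _ k ?_ (glue hm f h1)
      have h2 : ((m * (j + 1) : ℕ) : ℝ) ≤ k := by
        push_cast
        refine le_trans ?_ hk
        refine mul_le_mul_of_nonneg_left ?_ (by positivity)
        nlinarith
      exact_mod_cast h2

/-- a class with few close neighbours, width below the height -/
theorem sep_cls (hc : t_CLS) (k : ℕ) {T : Finset Pl} {w : ℝ} (hT : Good T) (hw : 0 ≤ w)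
    (hk : ∀ x ∈ T, ∀ U : Finset Pl, U ⊆ T → (∀ y ∈ U, y ≠ x ∧ dist x y ≤ 2 * w ^ 2) → U.card ≤ k)
    (hthin : Thin w (T : Set Pl)) : Cp ((k + 1) * (0 + 1)) T := by
  set N : ℕ := ⌊2 * w ^ 2⌋₊ + 1 with hN
  have hN1 : 2 * w ^ 2 < (N : ℝ) := by
    rw [hN]
    push_cast
    exact Nat.lt_floor_add_one _
  have hN2 : ((N : ℝ) - 1) ≤ 2 * w ^ 2 := by
    rw [hN]
    push_cast
    have := Nat.floor_le (by positivity : (0 : ℝ) ≤ 2 * w ^ 2)
    linarith
  have hsq : √((N : ℝ) / 2) ^ 2 = (N : ℝ) / 2 := Real.sq_sqrt (by positivity)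
  refine hc k 0 T (2 * w ^ 2) (√((N : ℝ) / 2)) w hT (by positivity) hk ?_ hthin ?_
  · intro x hx y hy hxy
    obtain ⟨n, hn⟩ := hT.nat hx hy
    rw [hsq, hn]
    rw [hn] at hxy
    have h1 : N ≤ n := by
      rw [hN]
      have : (⌊2 * w ^ 2⌋₊ : ℝ) < n :=
        lt_of_le_of_lt (Nat.floor_le (by positivity)) hxy
      have h2 : ⌊2 * w ^ 2⌋₊ < n := by exact_mod_cast this
      omega
    have h2 : (N : ℝ) ≤ n := by exact_mod_cast h1
    linarith
  · have : w < √((N : ℝ) / 2) := by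
      rw [Real.lt_sqrt hw]
      linarith
    push_cast
    linarith

theorem partB (h3 : t_ST3) (hm : t_MRG) (hc : t_CLS) {S : Finset Pl} {m : ℕ} {w : ℝ}
    (hS : Good S) (hw : 0 ≤ w) (hT : ThinSplit m w S)
    (hd : 2560 * w ^ 12 < Metric.diam (S : Set Pl)) : Cp (2 * m) S := by
  obtain ⟨f, hf⟩ := hT
  have h1 : ∀ i, Cp ((1 + 1) * (0 + 1)) (cls S f i) := by
    intro i
    refine sep_cls hc 1 (hS.subset (cls_subset S f i)) hw ?_ (thin_cls (hf i))
    intro x hx U hU hUx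
    by_contra hcon
    rw [not_le] at hcon
    obtain ⟨y, hy, z, hz, hyz⟩ := Finset.one_lt_card.1 hcon
    have hxS := cls_subset S f i hx
    have hyS := cls_subset S f i (hU hy)
    have hzS := cls_subset S f i (hU hz)
    have hall : ∀ p ∈ S, dist x p ≤ 20 * (2 * w ^ 2) ^ 6 := by
      intro p hp
      exact h3 S (2 * w ^ 2) hS x hxS y hyS z hzS (hUx y hy).1.symm (hUx z hz).1.symm hyz
        (hUx y hy).2 (hUx z hz).2 p hp
    have hdiam : Metric.diam (S : Set Pl) ≤ 2560 * w ^ 12 := by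
      refine Metric.diam_le_of_forall_dist_le (by positivity) ?_
      intro p hp q hq
      have a1 := hall p hp
      have a2 := hall q hq
      have a3 := dist_triangle_left p q x
      nlinarith
    linarith
  have h2 := glue hm f h1
  have e : m * ((1 + 1) * (0 + 1)) = 2 * m := by ring
  rwa [e] at h2

theorem four_of_card {U : Finset Pl} (h : 3 < U.card) :
    ∃ a ∈ U, ∃ b ∈ U, ∃ c ∈ U, ∃ d ∈ U, a ≠ b ∧ a ≠ c ∧ a ≠ d ∧ b ≠ c ∧ b ≠ d ∧ c ≠ d := by
  obtain ⟨V, hV, hV4⟩ := Finset.exists_subset_card_eq (show 4 ≤ U.card by omega)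
  obtain ⟨a, ha⟩ := Finset.card_pos.1 (show 0 < V.card by omega)
  have h3 : (V.erase a).card = 3 := by
    rw [Finset.card_erase_of_mem ha]
    omega
  obtain ⟨b, c, d, hbc, hbd, hcd, he⟩ := Finset.card_eq_three.1 h3
  have hb : b ∈ V.erase a := by rw [he]; simp
  have hc : c ∈ V.erase a := by rw [he]; simp
  have hd : d ∈ V.erase a := by rw [he]; simp
  rw [Finset.mem_erase] at hb hc hd
  exact ⟨a, hV ha, b, hV hb.2, c, hV hc.2, d, hV hd.2, hb.1.symm, hc.1.symm, hd.1.symm, hbc, hbd,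
    hcd⟩

open Classical in
/-- four points near x: at most two far points -/
theorem far_card (h5 : t_ST5) {S : Finset Pl} (hS : Good S) {x : Pl} (hx : x ∈ S) {ρ : ℝ}
    {U : Finset Pl} (hU : U ⊆ S) (hUx : ∀ y ∈ U, y ≠ x ∧ dist x y ≤ ρ) (hc : 3 < U.card) :
    (S.filter (fun p => 3 * ρ ^ 4 < dist x p)).card ≤ 2 := by
  by_contra hcon
  rw [not_le] at hcon
  obtain ⟨p1, hp1, p2, hp2, p3, hp3, h12, h13, h23⟩ := Finset.two_lt_card.1 hcon
  rw [Finset.mem_filter] at hp1 hp2 hp3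
  obtain ⟨a, ha, b, hb, c, hc', d, hd, hab, hac, had, hbc, hbd, hcd⟩ := four_of_card hc
  exact h5 S ρ hS x hx a (hU ha) b (hU hb) c (hU hc') d (hU hd) (hUx a ha).1.symm
    (hUx b hb).1.symm (hUx c hc').1.symm (hUx d hd).1.symm hab hac had hbc hbd hcd
    (hUx a ha).2 (hUx b hb).2 (hUx c hc').2 (hUx d hd).2 p1 hp1.1 p2 hp2.1 p3 hp3.1 h12 h13 h23
    hp1.2 hp2.2 hp3.2

theorem partC (h5 : t_ST5) (hm : t_MRG) (hc : t_CLS) {S : Finset Pl} {m : ℕ} {w : ℝ}
    (hS : Good S) (hw : 0 ≤ w) (hT : ThinSplit m w S) :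
    Cp (4 * m) S ∨ ∃ a ∈ S, ∃ E : Finset Pl, E.card ≤ 2 ∧
      ∀ x ∈ S, x ∉ E → dist a x ≤ 48 * w ^ 8 := by
  classical
  obtain ⟨f, hf⟩ := hT
  by_cases hex : ∃ x ∈ S, ∃ U : Finset Pl, U ⊆ S ∧ (∀ y ∈ U, y ≠ x ∧ dist x y ≤ 2 * w ^ 2) ∧
      3 < U.card
  · right
    obtain ⟨x, hx, U, hU, hUx, hc4⟩ := hex
    refine ⟨x, hx, S.filter (fun p => 3 * (2 * w ^ 2) ^ 4 < dist x p),
      far_card h5 hS hx hU hUx hc4, ?_⟩
    intro p hp hpE
    rw [Finset.mem_filter, not_and, not_lt] at hpE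
    have := hpE hp
    calc dist x p ≤ 3 * (2 * w ^ 2) ^ 4 := this
      _ = 48 * w ^ 8 := by ring
  · left
    push Not at hex
    have h1 : ∀ i, Cp ((3 + 1) * (0 + 1)) (cls S f i) := by
      intro i
      refine sep_cls hc 3 (hS.subset (cls_subset S f i)) hw ?_ (thin_cls (hf i))
      intro x hx U hU hUx
      exact hex x (cls_subset S f i hx) U (hU.trans (cls_subset S f i)) hUx
    have h2 := glue hm f h1
    have e : m * ((3 + 1) * (0 + 1)) = 4 * m := by ring
    rwa [e] at h2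

end Pool.Agent.RCX.ASM
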