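import Pool.Agent.RCX.ASM

/-!
# Assembly, part (D): the equivalence
-/

set_option autoImplicit false

open scoped InnerProductSpace

namespace Pool.Agent.RCX.ASM

theorem partD1 (hs : t_SEP) (h : ∃ K : ℕ, ∀ S : Finset Pl, Good S → Cp K S) :
    ∃ K : ℕ, ∀ S : Finset Pl, Good S →
      ThinSplit K (Metric.diam (S : Set Pl) ^ (1 / 8 : ℝ) / 2) S := by
  obtain ⟨K, hK⟩ := h
  refine ⟨K, fun S hS => ?_⟩
  obtain ⟨f, hf⟩ := hK S hS
  refine ⟨f, fun i => hs S K f i _ ?_ (hf i)⟩
  have := Real.rpow_nonneg (Metric.diam_nonneg (s := (S : Set Pl))) (1 / 8 : ℝ)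
  positivity

/-- two-colour a set by a split of a part and a small rest -/
theorem add_small (hm : t_MRG) {S S' : Finset Pl} {k : ℕ} (h1 : Cp k S')
    (hsub : S' ⊆ S) (hsmall : (S \ S').card ≤ 2) : Cp (k + 1) S := by
  classical
  obtain ⟨g, hg⟩ := h1
  refine ⟨fun x => if x ∈ S' then (g x).castSucc else Fin.last k, ?_⟩
  intro i
  refine Fin.lastCases ?_ ?_ i
  · refine Results.MP_a57197_co.ShortDistance.small_ind ?_
    have key : ∀ x, (x ∈ S ∧ (if x ∈ S' then (g x).castSucc else Fin.last k) = Fin.last k) →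
        x ∈ S \ S' := by
      rintro x ⟨hx, hx2⟩
      rw [Finset.mem_sdiff]
      refine ⟨hx, fun hx3 => ?_⟩
      rw [if_pos hx3] at hx2
      exact (Fin.castSucc_lt_last (g x)).ne hx2
    intro x y z hx hy hz
    by_contra hcon
    push Not at hcon
    have h3 : ({x, y, z} : Finset Pl).card = 3 := Finset.card_eq_three.2
      ⟨x, y, z, hcon.1, hcon.2.1, hcon.2.2, rfl⟩
    have h4 : ({x, y, z} : Finset Pl) ⊆ S \ S' := by
      intro u hu
      simp only [Finset.mem_insert, Finset.mem_singleton] at hu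
      rcases hu with rfl | rfl | rfl
      · exact key _ hx
      · exact key _ hy
      · exact key _ hz
    have := Finset.card_le_card h4
    omega
  · intro i
    have key : ∀ x, (x ∈ S ∧ (if x ∈ S' then (g x).castSucc else Fin.last k) = i.castSucc) ↔
        (x ∈ S' ∧ g x = i) := by
      intro x
      constructor
      · rintro ⟨hx, hx2⟩
        by_cases hx3 : x ∈ S'
        · rw [if_pos hx3] at hx2
          exact ⟨hx3, Fin.castSucc_injective k hx2⟩
        · rw [if_neg hx3] at hx2
          exact absurd hx2.symm (Fin.castSucc_lt_last i).ne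
      · rintro ⟨hx, hx2⟩
        exact ⟨hsub hx, by rw [if_pos hx, hx2]⟩
    have h2 := hg i
    have e : (fun x : Pl => x ∈ S ∧ (if x ∈ S' then (g x).castSucc else Fin.last k)
        = i.castSucc) = (fun x : Pl => x ∈ S' ∧ g x = i) := by
      funext x
      exact propext (key x)
    have h3 : ConvexIndependent ℝ (fun p : {x : Pl // (fun x : Pl => x ∈ S' ∧ g x = i) x} =>
        (p : Pl)) := h2
    rw [← e] at h3
    exact h3

theorem partD2 (h5 : t_ST5) (hm : t_MRG) (hc : t_CLS)
    (h : ∃ K : ℕ, ∀ S : Finset Pl, Good S →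
      ThinSplit K (Metric.diam (S : Set Pl) ^ (1 / 8 : ℝ) / 2) S) :
    ∃ K : ℕ, ∀ S : Finset Pl, Good S → Cp K S := by
  classical
  obtain ⟨K, hK⟩ := h
  refine ⟨K * 4 + 4, fun S hS => ?_⟩
  by_cases hex : ∃ r : ℕ, ∃ a ∈ S, ∃ U : Finset Pl, U ⊆ S ∧
      (∀ y ∈ U, y ≠ a ∧ dist a y ≤ (r : ℝ)) ∧ 3 < U.card
  · have hex' := hex
    set r := Nat.find hex' with hr
    obtain ⟨a, ha, U, hU, hUx, hU4⟩ := Nat.find_spec hex'
    rw [← hr] at hUx
    have hmin : ∀ n : ℕ, n < r → ∀ x ∈ S, ∀ V : Finset Pl, V ⊆ S →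
        (∀ y ∈ V, y ≠ x ∧ dist x y ≤ (n : ℝ)) → V.card ≤ 3 := by
      intro n hn x hx V hV hVx
      by_contra hcon
      rw [not_le] at hcon
      exact Nat.find_min hex' hn ⟨x, hx, V, hV, hVx, hcon⟩
    -- r is positive
    have hr0 : 0 < r := by
      obtain ⟨y, hy⟩ := Finset.card_pos.1 (show 0 < U.card by omega)
      have h1 := (hUx y hy).2
      have h2 := hS.one_le ha (hU hy) (hUx y hy).1.symm
      have h3 : (0 : ℝ) < r := by linarith
      exact_mod_cast h3
    -- remove the far points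
    set E : Finset Pl := S.filter (fun p => 3 * (r : ℝ) ^ 4 < dist a p) with hE
    have hEc : E.card ≤ 2 := far_card h5 hS ha hU hUx hU4
    set S' : Finset Pl := S \ E with hS'
    have hsub : S' ⊆ S := Finset.sdiff_subset
    have hgood : Good S' := hS.subset hsub
    have hdiam : Metric.diam (S' : Set Pl) ≤ 6 * (r : ℝ) ^ 4 := by
      refine Metric.diam_le_of_forall_dist_le (by positivity) ?_
      intro p hp q hq
      have a1 : dist a p ≤ 3 * (r : ℝ) ^ 4 := by
        rw [hS', Finset.mem_coe, Finset.mem_sdiff, hE, Finset.mem_filter, not_and, not_lt] at hp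
        exact hp.2 hp.1
      have a2 : dist a q ≤ 3 * (r : ℝ) ^ 4 := by
        rw [hS', Finset.mem_coe, Finset.mem_sdiff, hE, Finset.mem_filter, not_and, not_lt] at hq
        exact hq.2 hq.1
      have a3 := dist_triangle_left p q a
      linarith
    obtain ⟨f, hf⟩ := hK S' hgood
    set w : ℝ := Metric.diam (S' : Set Pl) ^ (1 / 8 : ℝ) / 2 with hw
    have hd0 : 0 ≤ Metric.diam (S' : Set Pl) := Metric.diam_nonneg
    have hw0 : 0 ≤ w := by
      have := Real.rpow_nonneg hd0 (1 / 8 : ℝ)
      positivity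
    have hrR : (0 : ℝ) < r := by exact_mod_cast hr0
    have hw8 : w ^ 8 = Metric.diam (S' : Set Pl) / 256 := by
      rw [hw, div_pow, ← Real.rpow_natCast (Metric.diam (S' : Set Pl) ^ (1 / 8 : ℝ)),
        ← Real.rpow_mul hd0]
      norm_num
    have h2w : 2 * w ^ 2 < (r : ℝ) := by
      by_contra hcon
      rw [not_lt] at hcon
      have h4 : (r : ℝ) ^ 4 ≤ (2 * w ^ 2) ^ 4 := pow_le_pow_left₀ hrR.le hcon 4
      have h5 : (2 * w ^ 2) ^ 4 = 16 * w ^ 8 := by ring
      rw [h5, hw8] at h4
      have h6 : (0 : ℝ) < (r : ℝ) ^ 4 := by positivity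
      linarith
    have hcls : ∀ i, Cp ((3 + 1) * (0 + 1)) (cls S' f i) := by
      intro i
      refine hc 3 0 (cls S' f i) ((r : ℝ) - 1) (√((r : ℝ) / 2)) w
        (hgood.subset (cls_subset S' f i)) (by positivity) ?_ ?_ (thin_cls (hf i)) ?_
      · intro x hx V hV hVx
        refine hmin (r - 1) (by omega) x (hsub (cls_subset S' f i hx)) V
          (hV.trans ((cls_subset S' f i).trans hsub)) ?_
        intro y hy
        refine ⟨(hVx y hy).1, ?_⟩
        rw [Nat.cast_sub (by omega : 1 ≤ r), Nat.cast_one]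
        exact (hVx y hy).2
      · intro x hx y hy hxy
        obtain ⟨n, hn⟩ := hgood.nat (cls_subset S' f i hx) (cls_subset S' f i hy)
        rw [Real.sq_sqrt (by positivity), hn]
        rw [hn] at hxy
        have h1 : (r : ℝ) < n + 1 := by linarith
        have h2 : r < n + 1 := by exact_mod_cast h1
        have h3 : (r : ℝ) ≤ n := by exact_mod_cast (by omega : r ≤ n)
        linarith
      · have : w < √((r : ℝ) / 2) := by
          rw [Real.lt_sqrt hw0]
          linarith
        push_cast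
        linarith
    have h1 : Cp (K * ((3 + 1) * (0 + 1))) S' := glue hm f hcls
    have h2 : Cp (K * ((3 + 1) * (0 + 1)) + 1) S := by
      refine add_small hm h1 hsub ?_
      have : S \ S' ⊆ E := by
        intro x hx
        rw [Finset.mem_sdiff, hS', Finset.mem_sdiff, not_and, not_not] at hx
        exact hx.2 hx.1
      exact (Finset.card_le_card this).trans hEc
    exact hm.2 S _ _ (by omega) h2
  · -- at most four points
    push Not at hex
    have hcard : S.card ≤ 4 := by
      rcases S.eq_empty_or_nonempty with hS0 | ⟨a, ha⟩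
      · rw [hS0]; simp
      · have hb : ∃ N : ℕ, ∀ y ∈ S, dist a y ≤ (N : ℝ) := by
          obtain ⟨N, hN⟩ := exists_nat_ge (∑ y ∈ S, dist a y)
          refine ⟨N, fun y hy => le_trans ?_ hN⟩
          exact Finset.single_le_sum (f := fun y => dist a y) (fun _ _ => dist_nonneg) hy
        obtain ⟨N, hN⟩ := hb
        have h1 := hex N a ha (S.erase a) (Finset.erase_subset _ _) (by
          intro y hy
          rw [Finset.mem_erase] at hy
          exact ⟨hy.1, hN y hy.2⟩)
        rw [Finset.card_erase_of_mem ha] at h1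
        omega
    -- remove two points, twice
    obtain ⟨T, hT, hTc⟩ : ∃ T : Finset Pl, T ⊆ S ∧ T.card ≤ 2 ∧ (S \ T).card ≤ 2 := by
      by_cases h2 : S.card ≤ 2
      · exact ⟨S, subset_rfl, h2, by simp⟩
      · obtain ⟨T, hT, hTc⟩ := Finset.exists_subset_card_eq (show 2 ≤ S.card by omega)
        refine ⟨T, hT, hTc.le, ?_⟩
        rw [Finset.card_sdiff_of_subset hT]
        omega
    have h1 : Cp (1 + 1) S := add_small hm (cp_small hTc.1) hT hTc.2
    exact hm.2 S _ _ (by omega) h1

/-- the main theorem from the modules -/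
theorem main (hp : t_PEE) (hm : t_MRG) (h3 : t_ST3) (h5 : t_ST5) (hs : t_SEP) (hc : t_CLS) :
    t_MAIN := by
  refine ⟨?_, ⟨partD1 hs, partD2 h5 hm hc⟩⟩
  intro S m w hS hw hT
  exact ⟨fun k hk => partA hp hm hS hw hT hk, fun hd => partB h3 hm hc hS hw hT hd,
    partC h5 hm hc hS hw hT⟩

end Pool.Agent.RCX.ASM
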