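import Pool.Agent.RCX.ASE

/-!
# Part (F): the equivalence in its strongest form
-/

set_option autoImplicit false

open scoped InnerProductSpace

namespace Pool.Agent.RCX.ASM

/-- thin splittings of the sets with large least distance are enough -/
theorem partF (h5 : t_ST5) (hg : t_GRD) (hm : t_MRG) (hc : t_CLS)
    (h : ∃ K : ℕ, ∀ S : Finset Pl, Good S →
      (∀ x ∈ S, ∀ y ∈ S, x ≠ y → Metric.diam (S : Set Pl) ≤ 6 * dist x y ^ 4) →
      ThinSplit K (Metric.diam (S : Set Pl) ^ (1 / 8 : ℝ) / 2) S) :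
    ∃ K : ℕ, ∀ S : Finset Pl, Good S → Cp K S := by
  refine partE h5 hg hm ?_
  obtain ⟨K, hK⟩ := h
  refine ⟨K, fun S hS hd => ?_⟩
  obtain ⟨f, hf⟩ := hK S hS hd
  set w : ℝ := Metric.diam (S : Set Pl) ^ (1 / 8 : ℝ) / 2 with hw
  have hd0 : 0 ≤ Metric.diam (S : Set Pl) := Metric.diam_nonneg
  have hw0 : 0 ≤ w := by
    have := Real.rpow_nonneg hd0 (1 / 8 : ℝ)
    positivity
  have hw8 : w ^ 8 = Metric.diam (S : Set Pl) / 256 := by
    rw [hw, div_pow, ← Real.rpow_natCast (Metric.diam (S : Set Pl) ^ (1 / 8 : ℝ)),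
      ← Real.rpow_mul hd0]
    norm_num
  have h1 : ∀ i, Cp ((0 + 1) * (0 + 1)) (cls S f i) := by
    intro i
    refine sep_cls hc 0 (hS.subset (cls_subset S f i)) hw0 ?_ (thin_cls (hf i))
    intro x hx U hU hUx
    by_contra hcon
    rw [not_le] at hcon
    obtain ⟨y, hy⟩ := Finset.card_pos.1 hcon
    obtain ⟨hyx, hyd⟩ := hUx y hy
    have h2 := hd x (cls_subset S f i hx) y (cls_subset S f i (hU hy)) hyx.symm
    have h3 := hS.one_le (cls_subset S f i hx) (cls_subset S f i (hU hy)) hyx.symm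
    have h4 : dist x y ^ 4 ≤ (2 * w ^ 2) ^ 4 := pow_le_pow_left₀ dist_nonneg hyd 4
    have h5 : (2 * w ^ 2) ^ 4 = 16 * w ^ 8 := by ring
    rw [h5, hw8] at h4
    have h6 : (1 : ℝ) ≤ dist x y ^ 4 := one_le_pow₀ h3
    linarith
  have h2 := glue hm f h1
  have e : K * ((0 + 1) * (0 + 1)) = K := by ring
  rwa [e] at h2

/-- everything from the modules -/
theorem all (hp : t_PEE) (hg : t_GRD) (hm : t_MRG) (h3 : t_ST3) (h5 : t_ST5) (hs : t_SEP)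
    (hc : t_CLS) :
    (∀ (S : Finset Pl) (m : ℕ) (w : ℝ), Good S → 0 ≤ w → ThinSplit m w S →
      (∀ k : ℕ, (m : ℝ) * (2 * w ^ (2 / 3 : ℝ) + 1) ≤ k → Cp k S) ∧
      (2560 * w ^ 12 < Metric.diam (S : Set Pl) → Cp (2 * m) S) ∧
      (Cp (4 * m) S ∨ ∃ a ∈ S, ∃ E : Finset Pl, E.card ≤ 2 ∧
        ∀ x ∈ S, x ∉ E → dist a x ≤ 48 * w ^ 8)) ∧
    ((∃ K : ℕ, ∀ S : Finset Pl, Good S → Cp K S) ↔
      ∃ K : ℕ, ∀ S : Finset Pl, Good S →
        (∀ x ∈ S, ∀ y ∈ S, x ≠ y → Metric.diam (S : Set Pl) ≤ 6 * dist x y ^ 4) →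
        ThinSplit K (Metric.diam (S : Set Pl) ^ (1 / 8 : ℝ) / 2) S) := by
  refine ⟨?_, ⟨?_, partF h5 hg hm hc⟩⟩
  · intro S m w hS hw hT
    exact ⟨fun k hk => partA hp hm hS hw hT hk, fun hd => partB h3 hm hc hS hw hT hd,
      partC h5 hm hc hS hw hT⟩
  · intro h
    obtain ⟨K, hK⟩ := partD1 hs h
    exact ⟨K, fun S hS _ => hK S hS⟩

end Pool.Agent.RCX.ASM
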