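import Pool.Agent.RCX.ASF

/-!
# Parts (B), (C) with a parameter j, and the final assembly
-/

set_option autoImplicit false

open scoped InnerProductSpace

namespace Pool.Agent.RCX.ASM

/-- a class with few close neighbours, width below j times the height -/
theorem sep_clsj (hc : t_CLS) (k j : ℕ) {T : Finset Pl} {w : ℝ} (hT : Good T) (hw : 0 ≤ w)
    (hk : ∀ x ∈ T, ∀ U : Finset Pl, U ⊆ T →
      (∀ y ∈ U, y ≠ x ∧ dist x y ≤ 2 * (w / ((j : ℝ) + 1)) ^ 2) → U.card ≤ k)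
    (hthin : Thin w (T : Set Pl)) : Cp ((k + 1) * (j + 1)) T := by
  have hj : (0 : ℝ) < (j : ℝ) + 1 := by positivity
  set v : ℝ := w / ((j : ℝ) + 1) with hv
  have hv0 : 0 ≤ v := by positivity
  have hwv : w = ((j : ℝ) + 1) * v := by
    rw [hv]
    field_simp
  set N : ℕ := ⌊2 * v ^ 2⌋₊ + 1 with hN
  have hN1 : 2 * v ^ 2 < (N : ℝ) := by
    rw [hN]
    push_cast
    exact Nat.lt_floor_add_one _
  refine hc k j T (2 * v ^ 2) (√((N : ℝ) / 2)) w hT (by positivity) hk ?_ hthin ?_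
  · intro x hx y hy hxy
    obtain ⟨n, hn⟩ := hT.nat hx hy
    rw [Real.sq_sqrt (by positivity), hn]
    rw [hn] at hxy
    have h1 : N ≤ n := by
      rw [hN]
      have : (⌊2 * v ^ 2⌋₊ : ℝ) < n :=
        lt_of_le_of_lt (Nat.floor_le (by positivity)) hxy
      have h2 : ⌊2 * v ^ 2⌋₊ < n := by exact_mod_cast this
      omega
    have h2 : (N : ℝ) ≤ n := by exact_mod_cast h1
    linarith
  · have : v < √((N : ℝ) / 2) := by
      rw [Real.lt_sqrt hv0]
      linarith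
    rw [hwv]
    exact mul_lt_mul_of_pos_left this hj

theorem partBj (h3 : t_ST3) (hm : t_MRG) (hc : t_CLS) {S : Finset Pl} {m : ℕ} {w : ℝ}
    (hS : Good S) (hw : 0 ≤ w) (hT : ThinSplit m w S) (j : ℕ)
    (hd : 2560 * w ^ 12 < ((j : ℝ) + 1) ^ 12 * Metric.diam (S : Set Pl)) :
    Cp (2 * (j + 1) * m) S := by
  obtain ⟨f, hf⟩ := hT
  have hj : (0 : ℝ) < (j : ℝ) + 1 := by positivity
  have h1 : ∀ i, Cp ((1 + 1) * (j + 1)) (cls S f i) := by
    intro i
    refine sep_clsj hc 1 j (hS.subset (cls_subset S f i)) hw ?_ (thin_cls (hf i))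
    intro x hx U hU hUx
    by_contra hcon
    rw [not_le] at hcon
    obtain ⟨y, hy, z, hz, hyz⟩ := Finset.one_lt_card.1 hcon
    have hxS := cls_subset S f i hx
    have hyS := cls_subset S f i (hU hy)
    have hzS := cls_subset S f i (hU hz)
    set v : ℝ := w / ((j : ℝ) + 1) with hv
    have hall : ∀ p ∈ S, dist x p ≤ 20 * (2 * v ^ 2) ^ 6 := by
      intro p hp
      exact h3 S (2 * v ^ 2) hS x hxS y hyS z hzS (hUx y hy).1.symm (hUx z hz).1.symm hyz
        (hUx y hy).2 (hUx z hz).2 p hp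
    have hv0 : 0 ≤ v := by positivity
    have hdiam : Metric.diam (S : Set Pl) ≤ 2560 * v ^ 12 := by
      refine Metric.diam_le_of_forall_dist_le (by positivity) ?_
      intro p hp q hq
      have a1 := hall p hp
      have a2 := hall q hq
      have a3 := dist_triangle_left p q x
      nlinarith
    have hw12 : ((j : ℝ) + 1) ^ 12 * v ^ 12 = w ^ 12 := by
      rw [hv, ← mul_pow]
      congr 1
      field_simp
    have h4 : ((j : ℝ) + 1) ^ 12 * Metric.diam (S : Set Pl) ≤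
        ((j : ℝ) + 1) ^ 12 * (2560 * v ^ 12) :=
      mul_le_mul_of_nonneg_left hdiam (by positivity)
    have h5 : ((j : ℝ) + 1) ^ 12 * (2560 * v ^ 12) = 2560 * w ^ 12 := by
      rw [← hw12]; ring
    linarith
  have h2 := glue hm f h1
  have e : m * ((1 + 1) * (j + 1)) = 2 * (j + 1) * m := by ring
  rwa [e] at h2

theorem partCj (h5 : t_ST5) (hm : t_MRG) (hc : t_CLS) {S : Finset Pl} {m : ℕ} {w : ℝ}
    (hS : Good S) (hw : 0 ≤ w) (hT : ThinSplit m w S) (j : ℕ) :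
    Cp (4 * (j + 1) * m) S ∨ ∃ a ∈ S, ∃ E : Finset Pl, E.card ≤ 2 ∧
      ∀ x ∈ S, x ∉ E → dist a x ≤ 48 * (w / ((j : ℝ) + 1)) ^ 8 := by
  classical
  obtain ⟨f, hf⟩ := hT
  set v : ℝ := w / ((j : ℝ) + 1) with hv
  by_cases hex : ∃ x ∈ S, ∃ U : Finset Pl, U ⊆ S ∧ (∀ y ∈ U, y ≠ x ∧ dist x y ≤ 2 * v ^ 2) ∧
      3 < U.card
  · right
    obtain ⟨x, hx, U, hU, hUx, hc4⟩ := hex
    refine ⟨x, hx, S.filter (fun p => 3 * (2 * v ^ 2) ^ 4 < dist x p),
      far_card h5 hS hx hU hUx hc4, ?_⟩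
    intro p hp hpE
    rw [Finset.mem_filter, not_and, not_lt] at hpE
    have := hpE hp
    calc dist x p ≤ 3 * (2 * v ^ 2) ^ 4 := this
      _ = 48 * v ^ 8 := by ring
  · left
    push Not at hex
    have h1 : ∀ i, Cp ((3 + 1) * (j + 1)) (cls S f i) := by
      intro i
      refine sep_clsj hc 3 j (hS.subset (cls_subset S f i)) hw ?_ (thin_cls (hf i))
      intro x hx U hU hUx
      exact hex x (cls_subset S f i hx) U (hU.trans (cls_subset S f i)) hUx
    have h2 := glue hm f h1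
    have e : m * ((3 + 1) * (j + 1)) = 4 * (j + 1) * m := by ring
    rwa [e] at h2

/-- the final statement from the modules -/
theorem final (hp : t_PEE) (hg : t_GRD) (hm : t_MRG) (h3 : t_ST3) (h5 : t_ST5) (hs : t_SEP)
    (hc : t_CLS) :
    (∀ (S : Finset Pl) (m : ℕ) (w : ℝ), Good S → 0 ≤ w → ThinSplit m w S →
      (∀ k : ℕ, (m : ℝ) * (2 * w ^ (2 / 3 : ℝ) + 1) ≤ k → Cp k S) ∧
      (∀ j : ℕ, 2560 * w ^ 12 < (j : ℝ) ^ 12 * Metric.diam (S : Set Pl) → Cp (2 * j * m) S) ∧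
      (∀ j : ℕ, 0 < j → Cp (4 * j * m) S ∨ ∃ a ∈ S, ∃ E : Finset Pl, E.card ≤ 2 ∧
        ∀ x ∈ S, x ∉ E → dist a x ≤ 48 * (w / j) ^ 8)) ∧
    ((∃ K : ℕ, ∀ S : Finset Pl, Good S → Cp K S) ↔
      ∃ K : ℕ, ∀ S : Finset Pl, Good S →
        (∀ x ∈ S, ∀ y ∈ S, x ≠ y → Metric.diam (S : Set Pl) ≤ 6 * dist x y ^ 4) →
        ThinSplit K (Metric.diam (S : Set Pl) ^ (1 / 8 : ℝ) / 2) S) := by
  refine ⟨?_, (all hp hg hm h3 h5 hs hc).2⟩
  intro S m w hS hw hT
  refine ⟨fun k hk => partA hp hm hS hw hT hk, ?_, ?_⟩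
  · intro j hd
    rcases Nat.eq_zero_or_pos j with h0 | h0
    · exfalso
      subst h0
      have : (0 : ℝ) ≤ 2560 * w ^ 12 := by positivity
      rw [Nat.cast_zero, zero_pow (by norm_num), zero_mul] at hd
      linarith
    · obtain ⟨i, rfl⟩ : ∃ i, j = i + 1 := ⟨j - 1, by omega⟩
      refine partBj h3 hm hc hS hw hT i ?_
      push_cast at hd
      exact hd
  · intro j h0
    obtain ⟨i, rfl⟩ : ∃ i, j = i + 1 := ⟨j - 1, by omega⟩
    have := partCj h5 hm hc hS hw hT i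
    push_cast
    exact this

end Pool.Agent.RCX.ASM
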