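import Pool.Agent.RCX.St

/-!
# Project RCX, module CAR: a point in the hull of the others lies strictly inside a triangle
-/

set_option autoImplicit false

open scoped InnerProductSpace

namespace Pool.Agent.RCX

namespace CAR

theorem fin_family {ι : Type} [Fintype ι] {n : ℕ} (hn : Fintype.card ι = n) (z : ι → Pl)
    (w : ι → ℝ) (s : Set Pl) (x : Pl) (hz : Set.range z ⊆ s) (hinj : Function.Injective z)
    (hw : ∀ i, 0 < w i) (hs : ∑ i, w i = 1) (hx : ∑ i, w i • z i = x) :
    ∃ (z' : Fin n → Pl) (w' : Fin n → ℝ), (∀ i, z' i ∈ s) ∧ Function.Injective z' ∧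
      (∀ i, 0 < w' i) ∧ ∑ i, w' i = 1 ∧ ∑ i, w' i • (z' i - x) = 0 := by
  have e : ι ≃ Fin n := Fintype.equivFinOfCardEq hn
  refine ⟨z ∘ e.symm, w ∘ e.symm, fun i => hz ⟨_, rfl⟩, hinj.comp e.symm.injective,
    fun i => hw _, ?_, ?_⟩
  · rw [← hs]
    exact Equiv.sum_comp e.symm w
  have h1 : ∑ i, (w ∘ e.symm) i • ((z ∘ e.symm) i - x) = ∑ i, w i • (z i - x) :=
    Equiv.sum_comp e.symm fun i => w i • (z i - x)
  rw [h1]
  simp only [smul_sub]
  rw [Finset.sum_sub_distrib, ← Finset.sum_smul, hs, one_smul, hx, sub_self]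

theorem cr_smul_right (c : ℝ) (u v : Pl) : cr u (c • v) = c * cr u v := by
  simp only [cr, PiLp.smul_apply, smul_eq_mul]
  ring

theorem cr_self (u : Pl) : cr u u = 0 := by
  simp only [cr]
  ring

theorem cr_zero_right (u : Pl) : cr u 0 = 0 := by
  simp [cr]

theorem cr_add_right (u v w : Pl) : cr u (v + w) = cr u v + cr u w := by
  simp only [cr, PiLp.add_apply]
  ring

end CAR

open CAR in
theorem CAR_thm : t_CAR := by
  intro T x hT hx hxc
  obtain ⟨ι, hι, z, w, hz, hind, hw, hs, hsum⟩ := eq_pos_convex_span_of_mem_convexHull hxc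
  have hcard : Fintype.card ι ≤ 3 := by
    have h1 := hind.card_le_finrank_succ
    have h2 : Module.finrank ℝ (vectorSpan ℝ (Set.range z)) ≤ Module.finrank ℝ Pl :=
      Submodule.finrank_le _
    rw [finrank_euclideanSpace, Fintype.card_fin] at h2
    omega
  obtain ⟨z', w', hz', hinj, hw', hs', hrel⟩ :=
    fin_family rfl z w _ x hz hind.injective hw hs hsum
  generalize Fintype.card ι = n at hcard z' w' hz' hinj hw' hrel hs'
  have hmem : ∀ i, z' i ∈ T := fun i => (hz' i).1
  have hne : ∀ i, z' i ≠ x := fun i h => (hz' i).2 h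
  have hcr : ∀ i j, i ≠ j → cr (z' i - x) (z' j - x) ≠ 0 := fun i j hij =>
    RCX.cr_ne (hT x hx (z' i) (hmem i) (z' j) (hmem j) (hne i).symm (hne j).symm
      fun h => hij (hinj h))
  match n, hcard with
  | 0, _ =>
    rw [Finset.univ_eq_empty, Finset.sum_empty] at hs'
    exact absurd hs' zero_ne_one
  | 1, _ =>
    rw [Fin.sum_univ_one] at hs' hrel
    rw [hs', one_smul] at hrel
    exact absurd (sub_eq_zero.1 hrel) (hne 0)
  | 2, _ =>
    rw [Fin.sum_univ_two] at hrel
    exfalso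
    have h1 := congrArg (cr (z' 0 - x)) hrel
    rw [cr_add_right, cr_smul_right, cr_smul_right, cr_self, cr_zero_right, mul_zero,
      zero_add] at h1
    rcases mul_eq_zero.1 h1 with h2 | h2
    · exact (hw' 1).ne' h2
    · exact hcr 0 1 (by decide) h2
  | 3, _ =>
    rw [Fin.sum_univ_three] at hrel
    exact ⟨z' 0, hmem 0, z' 1, hmem 1, z' 2, hmem 2, hne 0, hne 1, hne 2,
      fun h => absurd (hinj h) (by decide), fun h => absurd (hinj h) (by decide),
      fun h => absurd (hinj h) (by decide), w' 0, w' 1, w' 2, hw' 0, hw' 1, hw' 2, hrel,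
      hcr 0 1 (by decide)⟩

end Pool.Agent.RCX
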