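import Pool.Agent.RCX.St

/-!
# Robust convexity of integral point sets: classes with few close points (module CLS)
-/

set_option autoImplicit false

open scoped InnerProductSpace

namespace Pool.Agent.RCX

theorem CLS_thm (h1 : t_PEE) (h2 : t_GRD) (h3 : t_MRG) : t_CLS := by
  intro k j T d h w hT h0 hk hd hw hj
  obtain ⟨g, hg⟩ := h2 k T (fun x y => dist x y ≤ d)
    (fun x y hxy => by rw [dist_comm]; exact hxy) hk
  refine h3.1 T (k + 1) (j + 1) g fun i T' hT' => ?_
  have hsub : T' ⊆ T := fun x hx => ((hT' x).1 hx).1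
  refine h1 j T' h w (hT.subset hsub) h0 (fun x hx y hy hxy => ?_) (fun q hq => ?_) hj
  · refine hd x (hsub hx) y (hsub hy) ?_
    by_contra hcon
    exact hg x (hsub hx) y (hsub hy) hxy (not_lt.1 hcon)
      (((hT' x).1 hx).2.trans ((hT' y).1 hy).2.symm)
  · obtain ⟨n, hn, hn'⟩ := hw q (Finset.mem_coe.2 (hsub (Finset.mem_coe.1 hq)))
    exact ⟨n, hn, fun x hx => hn' x (Finset.mem_coe.2 (hsub (Finset.mem_coe.1 hx)))⟩

end Pool.Agent.RCX
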