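import Pool.Agent.RCX.St

/-!
# DEP: points that are not extreme are deep
-/

set_option autoImplicit false

open scoped InnerProductSpace

namespace Pool.Agent.RCX

theorem DEP_thm (h1 : t_TRI) (h2 : t_KLG) (h3 : t_CAR) : t_DEP := by
  intro T h hT hh hd x hx hxc n hn
  by_contra hcon
  push Not at hcon
  obtain ⟨a, ha, b, hb, c, hc, hax, hbx, hcx, hab, hbc, hca, α, β, γ, hα, hβ, hγ, hrel, hcr⟩ :=
    h3 (T : Set Pl) x (fun a ha b hb c hc => hT.1 a (Finset.mem_coe.1 ha) b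
      (Finset.mem_coe.1 hb) c (Finset.mem_coe.1 hc)) (Finset.mem_coe.2 hx) hxc
  have ha' : a ∈ T := Finset.mem_coe.1 ha
  have hb' : b ∈ T := Finset.mem_coe.1 hb
  have hc' : c ∈ T := Finset.mem_coe.1 hc
  have key : ∀ y ∈ T, ∀ z ∈ T, y ≠ x → z ≠ x → y ≠ z →
      h ^ 2 * dist (y - x) (z - x) ^ 2 ≤ cr (y - x) (z - x) ^ 2 := by
    intro y hy z hz hyx hzx hyz
    have e := h1 T hT x hx y hy z hz hyx.symm hzx.symm hyz (2 * h ^ 2) (hd x hx y hy hyx.symm)
      (hd x hx z hz hzx.symm) (hd y hy z hz hyz)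
    have e2 : dist (y - x) (z - x) = dist y z := dist_sub_right y z x
    rw [e2]
    linarith
  exact h2 (a - x) (b - x) (c - x) n α β γ h hα hβ hγ hrel hcr hh
    (key b hb' c hc' hbx hcx hbc) (key c hc' a ha' hcx hax hca) (key a ha' b hb' hax hbx hab) hn
    (hcon a ha') (hcon b hb') (hcon c hc')

end Pool.Agent.RCX
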