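import Mathlib

/-!
# Robust convexity of integral point sets (MP_a57197_co): definitions
-/

set_option autoImplicit false

open scoped InnerProductSpace

namespace Pool.Agent.RCX

/-- the Euclidean plane -/
abbrev Pl := EuclideanSpace ℝ (Fin 2)

/-- no three points of `S` are collinear and all distances are integers -/
def Good (S : Finset Pl) : Prop :=
  (∀ a ∈ S, ∀ b ∈ S, ∀ c ∈ S, a ≠ b → a ≠ c → b ≠ c →
    ¬ Collinear ℝ ({a, b, c} : Set Pl)) ∧
  (∀ a ∈ S, ∀ b ∈ S, ∃ n : ℤ, dist a b = (n : ℝ))

/-- `S` can be split into `k` sets in convex position (words of the frozen statement) -/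
def Cp (k : ℕ) (S : Finset Pl) : Prop :=
  ∃ f : Pl → Fin k, ∀ i : Fin k,
    ConvexIndependent ℝ (fun p : {x : Pl // x ∈ S ∧ f x = i} => (p : Pl))

/-- every point `q` of `T` is at distance at most `w` from a line that has `T` on one side
(that is, at distance at most `w` from the boundary of the convex hull of `T`) -/
def Thin (w : ℝ) (T : Set Pl) : Prop :=
  ∀ q ∈ T, ∃ n : Pl, ‖n‖ = 1 ∧ ∀ x ∈ T, ⟪x - q, n⟫_ℝ ≤ w

/-- the determinant of two vectors of the plane -/
def cr (u v : Pl) : ℝ := u 0 * v 1 - u 1 * v 0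

end Pool.Agent.RCX
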