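import Pool.Agent.RCX.St

/-!
# Module KLG of project RCX (MP_a57197_co): a triangle around the origin reaches far in every direction
-/

set_option autoImplicit false

open scoped InnerProductSpace

namespace Pool.Agent.RCX

namespace KLG

theorem side {q r n : Pl} {h : ℝ} (hh : 0 ≤ h) (hn : ‖n‖ = 1) (hpos : 0 < cr q r)
    (hs : h ^ 2 * dist q r ^ 2 ≤ cr q r ^ 2) : h * cr n (r - q) ≤ cr q r := by
  have h1 : |cr n (r - q)| ≤ ‖n‖ * ‖r - q‖ := abs_cr_le n (r - q)
  rw [hn, one_mul] at h1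
  have h2 : dist q r = ‖r - q‖ := by rw [dist_comm, dist_eq_norm]
  rw [h2, ← mul_pow] at hs
  have h3 : |h * ‖r - q‖| ≤ cr q r := abs_le_of_sq_le_sq hs hpos.le
  have h4 : h * ‖r - q‖ ≤ cr q r := (le_abs_self _).trans h3
  have h5 : h * cr n (r - q) ≤ h * ‖r - q‖ :=
    mul_le_mul_of_nonneg_left ((le_abs_self _).trans h1) hh
  exact h5.trans h4

theorem core (p q r n : Pl) (α β γ h : ℝ) (hα : 0 < α) (hβ : 0 < β) (hγ : 0 < γ)
    (rel : α • p + β • q + γ • r = 0) (hD : 0 < cr p q) (hh : 0 ≤ h)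
    (h1 : h ^ 2 * dist q r ^ 2 ≤ cr q r ^ 2) (h2 : h ^ 2 * dist r p ^ 2 ≤ cr r p ^ 2)
    (h3 : h ^ 2 * dist p q ^ 2 ≤ cr p q ^ 2) (hn : ‖n‖ = 1)
    (hp : ⟪p, n⟫_ℝ < h) (hq : ⟪q, n⟫_ℝ < h) (hr : ⟪r, n⟫_ℝ < h) : False := by
  have rel0 : α * p 0 + β * q 0 + γ * r 0 = 0 := by
    have := congrArg (fun v : Pl => v 0) rel
    simpa using this
  have rel1 : α * p 1 + β * q 1 + γ * r 1 = 0 := by
    have := congrArg (fun v : Pl => v 1) rel
    simpa using this
  have e1 : γ * cr q r = α * cr p q := by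
    simp only [cr]
    linear_combination (q 0) * rel1 - (q 1) * rel0
  have e2 : γ * cr r p = β * cr p q := by
    simp only [cr]
    linear_combination (p 1) * rel0 - (p 0) * rel1
  have hqr : 0 < cr q r := by
    have : 0 < γ * cr q r := by rw [e1]; positivity
    exact (pos_iff_pos_of_mul_pos this).1 hγ
  have hrp : 0 < cr r p := by
    have : 0 < γ * cr r p := by rw [e2]; positivity
    exact (pos_iff_pos_of_mul_pos this).1 hγ
  have a1 := side hh hn hqr h1
  have a2 := side hh hn hrp h2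
  have a3 := side hh hn hD h3
  have nn : n 0 ^ 2 + n 1 ^ 2 = 1 := by rw [← norm_sq, hn]; norm_num
  obtain ⟨A, hA⟩ : ∃ A, A = cr q r - h * cr n (r - q) := ⟨_, rfl⟩
  obtain ⟨B, hB⟩ : ∃ B, B = cr r p - h * cr n (p - r) := ⟨_, rfl⟩
  obtain ⟨C, hC⟩ : ∃ C, C = cr p q - h * cr n (q - p) := ⟨_, rfl⟩
  have A0 : 0 ≤ A := by rw [hA]; linarith
  have B0 : 0 ≤ B := by rw [hB]; linarith
  have C0 : 0 ≤ C := by rw [hC]; linarith
  have sum : A + B + C = cr q r + cr r p + cr p q := by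
    rw [hA, hB, hC]
    simp only [cr, PiLp.sub_apply]
    ring
  have spos : 0 < A + B + C := by rw [sum]; positivity
  have key : A * ⟪p, n⟫_ℝ + B * ⟪q, n⟫_ℝ + C * ⟪r, n⟫_ℝ = (A + B + C) * h := by
    rw [sum, hA, hB, hC, inner_eq, inner_eq, inner_eq]
    simp only [cr, PiLp.sub_apply]
    linear_combination (h * ((q 0 * r 1 - q 1 * r 0) + (r 0 * p 1 - r 1 * p 0) +
      (p 0 * q 1 - p 1 * q 0))) * nn
  have k1 : A * ⟪p, n⟫_ℝ ≤ A * h := mul_le_mul_of_nonneg_left hp.le A0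
  have k2 : B * ⟪q, n⟫_ℝ ≤ B * h := mul_le_mul_of_nonneg_left hq.le B0
  have k3 : C * ⟪r, n⟫_ℝ ≤ C * h := mul_le_mul_of_nonneg_left hr.le C0
  rcases A0.lt_or_eq with hA' | hA'
  · have := mul_lt_mul_of_pos_left hp hA'
    linarith
  · rcases B0.lt_or_eq with hB' | hB'
    · have := mul_lt_mul_of_pos_left hq hB'
      linarith
    · have hC' : 0 < C := by rw [← hA', ← hB'] at spos; linarith
      have := mul_lt_mul_of_pos_left hr hC'
      linarith

end KLG

open KLG in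
theorem KLG_thm : t_KLG := by
  intro p q r n α β γ h hα hβ hγ rel hne hh h1 h2 h3 hn hp hq hr
  rcases lt_or_gt_of_ne hne with hlt | hgt
  · -- swap `p` and `q`
    refine core q p r n β α γ h hβ hα hγ ?_ ?_ hh ?_ ?_ ?_ hn hq hp hr
    · rw [← rel]; abel
    · rw [cr_swap]; linarith
    · rw [dist_comm p r, cr_swap r p]; simpa using h2
    · rw [dist_comm r q, cr_swap q r]; simpa using h1
    · rw [dist_comm q p, cr_swap p q]; simpa using h3
  · exact core p q r n α β γ h hα hβ hγ rel hgt hh h1 h2 h3 hn hp hq hr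

end Pool.Agent.RCX
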