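import Pool.Agent.RCX.St

/-!
# Module MRG: colourings can be combined and enlarged
-/

set_option autoImplicit false

open scoped InnerProductSpace

namespace Pool.Agent.RCX

namespace MRG

/-- a subfamily of a convex independent family, as predicates -/
theorem sub {P Q : Pl → Prop} (h : ∀ x, P x → Q x)
    (hQ : ConvexIndependent ℝ (fun p : {x : Pl // Q x} => (p : Pl))) :
    ConvexIndependent ℝ (fun p : {x : Pl // P x} => (p : Pl)) :=
  hQ.comp_embedding (⟨fun p => ⟨p.1, h p.1 p.2⟩, fun p q hpq => by
    have := congrArg Subtype.val hpq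
    exact Subtype.ext this⟩ : {x : Pl // P x} ↪ {x : Pl // Q x})

end MRG

theorem MRG_thm : t_MRG := by
  classical
  refine ⟨?_, ?_⟩
  · intro S m j f hC
    have h1 : ∀ i : Fin m, Cp j (S.filter fun x => f x = i) := fun i =>
      hC i _ fun x => Finset.mem_filter
    choose g hg using h1
    refine ⟨fun x => finProdFinEquiv (f x, g (f x) x), fun c => ?_⟩
    refine MRG.sub ?_ (hg (finProdFinEquiv.symm c).1 (finProdFinEquiv.symm c).2)
    rintro x ⟨hx, hc⟩
    have hc' : finProdFinEquiv.symm c = (f x, g (f x) x) := by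
      rw [← hc, Equiv.symm_apply_apply]
    rw [hc']
    exact ⟨Finset.mem_filter.2 ⟨hx, rfl⟩, rfl⟩
  · rintro S k l hkl ⟨f, hf⟩
    refine ⟨fun x => Fin.castLE hkl (f x), fun i => ?_⟩
    by_cases hi : i.val < k
    · refine MRG.sub ?_ (hf ⟨i.val, hi⟩)
      rintro x ⟨hx, hc⟩
      refine ⟨hx, ?_⟩
      apply Fin.ext
      have h2 := congrArg Fin.val hc
      exact h2
    · have : IsEmpty {x : Pl // x ∈ S ∧ Fin.castLE hkl (f x) = i} := by
        refine ⟨?_⟩
        rintro ⟨x, hx, hc⟩
        apply hi
        rw [← hc]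
        exact (f x).isLt
      exact Subsingleton.convexIndependent _

end Pool.Agent.RCX
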