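import Pool.Agent.RCX.St

/-!
# PEE: peeling off the extreme points (module RCX_PEE, MP_a57197_co)
-/

set_option autoImplicit false

open scoped InnerProductSpace

namespace Pool.Agent.RCX

namespace PEE

/-- a family of points that are not in the hull of the others is in convex position -/
theorem ci_of (T : Finset Pl) (P : Pl → Prop)
    (h : ∀ x, P x → x ∈ T ∧ x ∉ convexHull ℝ ((T : Set Pl) \ {x})) :
    ConvexIndependent ℝ (fun p : {x : Pl // P x} => (p : Pl)) := by
  intro s x hx
  by_contra hxs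
  refine (h x.1 x.2).2 (convexHull_mono ?_ hx)
  rintro y ⟨z, hz, rfl⟩
  refine ⟨Finset.mem_coe.2 (h z.1 z.2).1, ?_⟩
  intro hzx
  have : z = x := Subtype.ext (Set.mem_singleton_iff.1 hzx)
  rw [this] at hz
  exact hxs hz

/-- transport to a subfamily -/
theorem ci_sub (P Q : Pl → Prop) (hPQ : ∀ x, P x → Q x)
    (h : ConvexIndependent ℝ (fun p : {x : Pl // Q x} => (p : Pl))) :
    ConvexIndependent ℝ (fun p : {x : Pl // P x} => (p : Pl)) :=
  ConvexIndependent.comp_embedding (ι' := {x : Pl // P x})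
    ⟨fun p : {x : Pl // P x} => (⟨p.1, hPQ p.1 p.2⟩ : {x : Pl // Q x}), fun _ _ hab =>
      Subtype.ext (congrArg (fun z : {x : Pl // Q x} => (z : Pl)) hab)⟩ h

end PEE

open PEE in
theorem PEE_thm (h1 : t_DEP) : t_PEE := by
  classical
  intro j
  induction j with
  | zero =>
    intro T h w hT hh hd hw hwj
    have hwh : w < h := by
      have : (((0 : ℕ) : ℝ) + 1) * h = h := by norm_num
      rwa [this] at hwj
    have hE : ∀ x ∈ T, x ∉ convexHull ℝ ((T : Set Pl) \ {x}) := by
      intro x hx hxc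
      obtain ⟨n, hn, hn2⟩ := hw x (Finset.mem_coe.2 hx)
      obtain ⟨y, hy, hy2⟩ := h1 T h hT hh hd x hx hxc n hn
      have := hn2 y (Finset.mem_coe.2 hy)
      linarith
    refine ⟨fun _ => 0, fun i => ci_of T _ fun x hx => ⟨hx.1, hE x hx.1⟩⟩
  | succ j ih =>
    intro T h w hT hh hd hw hwj
    set T' : Finset Pl := T.filter fun x => x ∈ convexHull ℝ ((T : Set Pl) \ {x}) with hT'
    have hsub : T' ⊆ T := Finset.filter_subset _ _
    have hthin : Thin (w - h) (T' : Set Pl) := by
      intro q hq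
      have hqT : q ∈ T := hsub (Finset.mem_coe.1 hq)
      obtain ⟨n, hn, hn2⟩ := hw q (Finset.mem_coe.2 hqT)
      refine ⟨n, hn, fun x hx => ?_⟩
      have hx' := Finset.mem_filter.1 (Finset.mem_coe.1 hx)
      obtain ⟨y, hy, hy2⟩ := h1 T h hT hh hd x hx'.1 hx'.2 n hn
      have h3 := hn2 y (Finset.mem_coe.2 hy)
      have h4 : ⟪x - q, n⟫_ℝ = ⟪y - q, n⟫_ℝ - ⟪y - x, n⟫_ℝ := by
        rw [← inner_sub_left]
        congr 1
        abel
      rw [h4]
      linarith
    have hw' : w - h < ((j : ℝ) + 1) * h := by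
      push_cast at hwj
      linarith
    obtain ⟨f', hf'⟩ := ih T' h (w - h) (hT.subset hsub) hh
      (fun x hx y hy => hd x (hsub hx) y (hsub hy)) hthin hw'
    refine ⟨fun x => if x ∈ T' then (f' x).castSucc else Fin.last (j + 1), ?_⟩
    intro i
    refine Fin.lastCases ?_ (fun k => ?_) i
    · refine ci_of T _ fun x hx => ⟨hx.1, fun hxc => ?_⟩
      have hx2 := hx.2
      beta_reduce at hx2
      have hxT' : x ∈ T' := Finset.mem_filter.2 ⟨hx.1, hxc⟩
      rw [if_pos hxT'] at hx2
      exact absurd hx2 (Fin.castSucc_lt_last _).ne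
    · refine ci_sub _ _ (fun x hx => ?_) (hf' k)
      have hx2 := hx.2
      beta_reduce at hx2
      by_cases hxT' : x ∈ T'
      · rw [if_pos hxT'] at hx2
        exact ⟨hxT', Fin.castSucc_injective _ hx2⟩
      · rw [if_neg hxT'] at hx2
        exact absurd hx2.symm (Fin.castSucc_lt_last _).ne

end Pool.Agent.RCX
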