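import Pool.Agent.RCX.St

/-!
# RCX: SEP
-/

set_option autoImplicit false

open scoped InnerProductSpace

namespace Pool.Agent.RCX

theorem SEP_thm : t_SEP := by
  intro S k f i w hw hci q hq
  have hfin : ({x : Pl | x ∈ S ∧ f x = i} \ {q}).Finite :=
    (S.finite_toSet.subset (fun x hx => hx.1)).subset Set.sdiff_subset
  have hnot : q ∉ convexHull ℝ ({x : Pl | x ∈ S ∧ f x = i} \ {q}) := by
    intro hmem
    have h1 := hci {x | (x : Pl) ≠ q} ⟨q, hq⟩ (by
      have himg : ((fun p : {x : Pl // x ∈ S ∧ f x = i} => (p : Pl)) '' {x | (x : Pl) ≠ q}) =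
          {x : Pl | x ∈ S ∧ f x = i} \ {q} := by
        ext x
        constructor
        · rintro ⟨y, hy, rfl⟩
          exact ⟨y.2, hy⟩
        · intro hx
          exact ⟨⟨x, hx.1⟩, hx.2, rfl⟩
      rw [himg]
      exact hmem)
    exact h1 rfl
  obtain ⟨g, u, hgq, hg⟩ := geometric_hahn_banach_point_closed (convex_convexHull ℝ _)
    (hfin.isClosed_convexHull ℝ) hnot
  by_cases hv : (InnerProductSpace.toDual ℝ Pl).symm g = 0
  · refine ⟨EuclideanSpace.single 0 1, by simp, ?_⟩
    intro x hx
    by_cases hxq : x = q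
    · subst hxq
      simpa using hw
    · exfalso
      have h2 := hg x (subset_convexHull ℝ _ ⟨hx, hxq⟩)
      have hx0 : g x = 0 := by
        rw [← InnerProductSpace.toDual_symm_apply, hv, inner_zero_left]
      have hq0 : g q = 0 := by
        rw [← InnerProductSpace.toDual_symm_apply, hv, inner_zero_left]
      linarith
  · set v := (InnerProductSpace.toDual ℝ Pl).symm g with hvdef
    have hvn : 0 < ‖v‖ := norm_pos_iff.2 hv
    refine ⟨(-‖v‖⁻¹) • v, ?_, ?_⟩
    · rw [norm_smul, norm_neg, norm_inv, norm_norm, inv_mul_cancel₀ hvn.ne']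
    · intro x hx
      refine le_trans ?_ hw
      rw [real_inner_smul_right, real_inner_comm, hvdef,
        InnerProductSpace.toDual_symm_apply, map_sub]
      by_cases hxq : x = q
      · subst hxq
        simp
      · have h2 := hg x (subset_convexHull ℝ _ ⟨hx, hxq⟩)
        have h3 : 0 < g x - g q := by linarith
        have h4 : 0 < ‖v‖⁻¹ := inv_pos.2 hvn
        have := mul_pos h4 h3
        rw [← hvdef]
        linarith

end Pool.Agent.RCX
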