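import Pool.Agent.RCX.St

/-!
# Robust convexity of integral point sets: module ST3
-/

set_option autoImplicit false

open scoped InnerProductSpace

namespace Pool.Agent.RCX

namespace ST3

/-- the Gram determinant of three vectors of the plane vanishes -/
theorem gram (u v w : Pl) :
    ‖u‖ ^ 2 * (4 * ‖v‖ ^ 2 * ‖w‖ ^ 2 - (2 * ⟪v, w⟫_ℝ) ^ 2) - (2 * ⟪u, v⟫_ℝ) ^ 2 * ‖w‖ ^ 2 +
      (2 * ⟪u, v⟫_ℝ) * (2 * ⟪u, w⟫_ℝ) * (2 * ⟪v, w⟫_ℝ) - (2 * ⟪u, w⟫_ℝ) ^ 2 * ‖v‖ ^ 2 = 0 := by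
  rw [norm_sq, norm_sq, norm_sq, inner_eq, inner_eq, inner_eq]
  ring

theorem inn (a b p : Pl) :
    2 * ⟪p - a, b - a⟫_ℝ = dist a p ^ 2 + dist a b ^ 2 - dist p b ^ 2 := by
  have h := norm_sub_sq_real (p - a) (b - a)
  rw [sub_sub_sub_cancel_right] at h
  rw [dist_comm a p, dist_comm a b, dist_eq_norm p a, dist_eq_norm b a, dist_eq_norm p b]
  linarith

/-- the arithmetic core -/
theorem core (ρ D s t h k β γ E M L G : ℝ) (hρ : 1 ≤ ρ) (hD : 0 ≤ D) (hs0 : 0 ≤ s) (ht0 : 0 ≤ t)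
    (hs : s ≤ ρ) (ht : t ≤ ρ) (hh : |h| ≤ ρ) (hk : |k| ≤ ρ) (hβ0 : 0 < β) (hγ0 : 0 < γ)
    (hβ : β ≤ ρ ^ 2) (hγ : γ ≤ ρ ^ 2) (hE : |E| ≤ 2 * ρ ^ 2)
    (hpos : 0 < 4 * s ^ 2 * t ^ 2 - E ^ 2)
    (hM : M = 0 ∨ 1 ≤ |M|) (hL : L = 0 ∨ 1 ≤ |L|)
    (eL : L = 4 * t ^ 2 * h * β - 2 * E * (h * γ + k * β) + 4 * s ^ 2 * k * γ)
    (eG : G = t ^ 2 * β ^ 2 - E * β * γ + s ^ 2 * γ ^ 2)
    (rel : D ^ 2 * M - D * L - G = 0) : D ≤ 20 * ρ ^ 6 := by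
  have hρ0 : 0 < ρ := by linarith
  have hs2 : s ^ 2 ≤ ρ ^ 2 := pow_le_pow_left₀ hs0 hs 2
  have ht2 : t ^ 2 ≤ ρ ^ 2 := pow_le_pow_left₀ ht0 ht 2
  have hs2' : 0 ≤ s ^ 2 := sq_nonneg s
  have ht2' : 0 ≤ t ^ 2 := sq_nonneg t
  have hρ2 : 0 < ρ ^ 2 := by positivity
  -- bounds for the products
  have a1 : |4 * t ^ 2 * h * β| ≤ 4 * ρ ^ 5 := by
    rw [abs_mul, abs_mul, abs_mul, abs_of_nonneg ht2', abs_of_pos hβ0]
    have : |(4 : ℝ)| = 4 := abs_of_pos (by norm_num)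
    rw [this]
    calc 4 * t ^ 2 * |h| * β ≤ 4 * ρ ^ 2 * ρ * ρ ^ 2 := by gcongr
      _ = 4 * ρ ^ 5 := by ring
  have a2 : |4 * s ^ 2 * k * γ| ≤ 4 * ρ ^ 5 := by
    rw [abs_mul, abs_mul, abs_mul, abs_of_nonneg hs2', abs_of_pos hγ0]
    have : |(4 : ℝ)| = 4 := abs_of_pos (by norm_num)
    rw [this]
    calc 4 * s ^ 2 * |k| * γ ≤ 4 * ρ ^ 2 * ρ * ρ ^ 2 := by gcongr
      _ = 4 * ρ ^ 5 := by ring
  have a3 : |h * γ + k * β| ≤ 2 * ρ ^ 3 := by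
    refine (abs_add_le _ _).trans ?_
    rw [abs_mul, abs_mul, abs_of_pos hγ0, abs_of_pos hβ0]
    calc |h| * γ + |k| * β ≤ ρ * ρ ^ 2 + ρ * ρ ^ 2 := by gcongr
      _ = 2 * ρ ^ 3 := by ring
  have a4 : |2 * E * (h * γ + k * β)| ≤ 8 * ρ ^ 5 := by
    rw [abs_mul, abs_mul]
    have : |(2 : ℝ)| = 2 := abs_of_pos (by norm_num)
    rw [this]
    calc 2 * |E| * |h * γ + k * β| ≤ 2 * (2 * ρ ^ 2) * (2 * ρ ^ 3) := by gcongr
      _ = 8 * ρ ^ 5 := by ring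
  have bL : |L| ≤ 16 * ρ ^ 5 := by
    rw [eL]
    have h1 := abs_add_le (4 * t ^ 2 * h * β - 2 * E * (h * γ + k * β)) (4 * s ^ 2 * k * γ)
    have h2 := abs_sub (4 * t ^ 2 * h * β) (2 * E * (h * γ + k * β))
    linarith
  have a5 : |E * β * γ| ≤ 2 * ρ ^ 6 := by
    rw [abs_mul, abs_mul, abs_of_pos hβ0, abs_of_pos hγ0]
    calc |E| * β * γ ≤ (2 * ρ ^ 2) * ρ ^ 2 * ρ ^ 2 := by gcongr
      _ = 2 * ρ ^ 6 := by ring
  have a6 : t ^ 2 * β ^ 2 ≤ ρ ^ 6 := by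
    calc t ^ 2 * β ^ 2 ≤ ρ ^ 2 * (ρ ^ 2) ^ 2 := by gcongr
      _ = ρ ^ 6 := by ring
  have a7 : s ^ 2 * γ ^ 2 ≤ ρ ^ 6 := by
    calc s ^ 2 * γ ^ 2 ≤ ρ ^ 2 * (ρ ^ 2) ^ 2 := by gcongr
      _ = ρ ^ 6 := by ring
  have bG : G ≤ 4 * ρ ^ 6 := by
    rw [eG]
    have := (abs_le.1 a5).1
    linarith
  have ht2p : 0 < t ^ 2 := by
    rcases ht2'.lt_or_eq with h | h
    · exact h
    · exfalso
      rw [← h] at hpos
      nlinarith [sq_nonneg E]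
  have pG : 0 < G := by
    have h1 : 4 * t ^ 2 * G = (2 * t ^ 2 * β - E * γ) ^ 2 + (4 * s ^ 2 * t ^ 2 - E ^ 2) * γ ^ 2 := by
      rw [eG]; ring
    have h2 : 0 < 4 * t ^ 2 * G := by
      rw [h1]
      have : 0 < (4 * s ^ 2 * t ^ 2 - E ^ 2) * γ ^ 2 := by positivity
      have := sq_nonneg (2 * t ^ 2 * β - E * γ)
      linarith
    by_contra hG
    have h3 : 4 * t ^ 2 * G ≤ 0 := mul_nonpos_of_nonneg_of_nonpos (by linarith) (not_lt.1 hG)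
    linarith
  have r5 : ρ ^ 5 ≤ ρ ^ 6 := pow_le_pow_right₀ hρ (by norm_num)
  have r5' : 0 < ρ ^ 5 := by positivity
  have r51 : 1 ≤ ρ ^ 5 := one_le_pow₀ hρ
  rcases hM with hM | hM
  · -- M = 0
    rw [hM] at rel
    have hDL : D * L = -G := by linarith
    have hL1 : 1 ≤ |L| := by
      rcases hL with hL | hL
      · rw [hL] at hDL
        linarith
      · exact hL
    have h2 : D * |L| = G := by
      rw [← abs_of_nonneg hD, ← abs_mul, hDL, abs_neg, abs_of_pos pG]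
    have h3 : D ≤ D * |L| := le_mul_of_one_le_right hD hL1
    have : 0 < ρ ^ 6 := by positivity
    linarith
  · by_contra hcon
    rw [not_le] at hcon
    have h1 : D ^ 2 * |M| = |D * L + G| := by
      have : D * L + G = D ^ 2 * M := by linarith
      rw [this, abs_mul, abs_of_nonneg (sq_nonneg D)]
    have h2 : |D * L + G| ≤ D * |L| + G := by
      refine (abs_add_le _ _).trans ?_
      rw [abs_mul, abs_of_nonneg hD, abs_of_pos pG]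
    have h3 : D ^ 2 ≤ D ^ 2 * |M| := le_mul_of_one_le_right (sq_nonneg D) hM
    have h4 : D * |L| ≤ D * (16 * ρ ^ 5) := mul_le_mul_of_nonneg_left bL hD
    have h5 : D ^ 2 ≤ D * (16 * ρ ^ 5) + 4 * ρ ^ 6 := by linarith
    -- but D > 20 ρ^6
    have h6 : D * (20 * ρ ^ 5) ≤ D ^ 2 := by
      have : D * (20 * ρ ^ 5) ≤ D * D := mul_le_mul_of_nonneg_left (by linarith) hD
      nlinarith [this]
    have h7 : D ≤ D * ρ ^ 5 := le_mul_of_one_le_right hD r51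
    have : 0 < ρ ^ 6 := by positivity
    nlinarith [h5, h6, h7]

theorem abs_int (m : ℤ) : (m : ℝ) = 0 ∨ 1 ≤ |(m : ℝ)| := by
  by_cases h : m = 0
  · left
    exact_mod_cast h
  · right
    have : 1 ≤ |m| := Int.one_le_abs h
    exact_mod_cast this

end ST3

open ST3

theorem ST3_thm : t_ST3 := by
  intro S ρ hS a ha b hb c hc hab hac hbc hρb hρc p hp
  have h1b : 1 ≤ dist a b := hS.one_le ha hb hab
  have hρ1 : 1 ≤ ρ := h1b.trans hρb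
  have hρ0 : 0 < ρ := by linarith
  have hρ6 : ρ ≤ 20 * ρ ^ 6 := by
    have h5 : 1 ≤ ρ ^ 5 := one_le_pow₀ hρ1
    have : ρ ≤ ρ * ρ ^ 5 := le_mul_of_one_le_right hρ0.le h5
    have h6 : ρ * ρ ^ 5 = ρ ^ 6 := by ring
    rw [h6] at this
    have : 0 < ρ ^ 6 := by positivity
    linarith
  by_cases hpa : p = a
  · rw [hpa, dist_self]
    positivity
  by_cases hpb : p = b
  · rw [hpb]
    exact hρb.trans hρ6
  by_cases hpc : p = c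
  · rw [hpc]
    exact hρc.trans hρ6
  obtain ⟨D, hD⟩ := hS.nat ha hp
  obtain ⟨x, hx⟩ := hS.nat hp hb
  obtain ⟨y, hy⟩ := hS.nat hp hc
  obtain ⟨z, hz⟩ := hS.nat hb hc
  obtain ⟨s, hs⟩ := hS.nat ha hb
  obtain ⟨t, ht⟩ := hS.nat ha hc
  -- strict triangle inequalities
  have hpa' : a ≠ p := fun h => hpa h.symm
  have hpb' : b ≠ p := fun h => hpb h.symm
  have hpc' : c ≠ p := fun h => hpc h.symm
  have tri1 : dist a p < dist a b + dist b p :=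
    strict_tri (hS.1 a ha b hb p hp hab hpa' hpb')
  have tri2 : dist b p < dist b a + dist a p :=
    strict_tri (hS.1 b hb a ha p hp hab.symm hpb' hpa')
  have tri3 : dist a p < dist a c + dist c p :=
    strict_tri (hS.1 a ha c hc p hp hac hpa' hpc')
  have tri4 : dist c p < dist c a + dist a p :=
    strict_tri (hS.1 c hc a ha p hp hac.symm hpc' hpa')
  rw [dist_comm b p] at tri1 tri2
  rw [dist_comm b a] at tri2
  rw [dist_comm c p] at tri3 tri4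
  rw [dist_comm c a] at tri4
  have hcr : cr (b - a) (c - a) ≠ 0 := hS.cr_ne ha hb hc hab hac hbc
  have i1 := inn a b p
  have i2 := inn a c p
  have i3 := inn a c b
  have g := gram (p - a) (b - a) (c - a)
  have csq := cr_sq (b - a) (c - a)
  rw [← dist_eq_norm, ← dist_eq_norm, dist_comm b a, dist_comm c a] at csq
  rw [← dist_eq_norm, ← dist_eq_norm, ← dist_eq_norm, dist_comm b a, dist_comm c a,
    dist_comm p a] at g
  have hcs := abs_real_inner_le_norm (b - a) (c - a)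
  rw [← dist_eq_norm, ← dist_eq_norm, dist_comm b a, dist_comm c a] at hcs
  -- abbreviations
  have hst : dist a b * dist a c ≤ ρ ^ 2 := by
    have := mul_le_mul hρb hρc dist_nonneg hρ0.le
    nlinarith [this]
  have hhle : |dist a p - dist p b| ≤ dist a b := by
    rw [abs_le]
    constructor <;> linarith
  have hkle : |dist a p - dist p c| ≤ dist a c := by
    rw [abs_le]
    constructor <;> linarith
  have hβ0 : 0 < dist a b ^ 2 - (dist a p - dist p b) ^ 2 := by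
    have h1 : 0 < dist a b - (dist a p - dist p b) := by linarith
    have h2 : 0 < dist a b + (dist a p - dist p b) := by linarith
    nlinarith [mul_pos h1 h2]
  have hγ0 : 0 < dist a c ^ 2 - (dist a p - dist p c) ^ 2 := by
    have h1 : 0 < dist a c - (dist a p - dist p c) := by linarith
    have h2 : 0 < dist a c + (dist a p - dist p c) := by linarith
    nlinarith [mul_pos h1 h2]
  have hb2 : dist a b ^ 2 ≤ ρ ^ 2 := pow_le_pow_left₀ dist_nonneg hρb 2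
  have hc2 : dist a c ^ 2 ≤ ρ ^ 2 := pow_le_pow_left₀ dist_nonneg hρc 2
  have hE : |2 * ⟪b - a, c - a⟫_ℝ| ≤ 2 * ρ ^ 2 := by
    rw [abs_mul, abs_of_pos (by norm_num : (0 : ℝ) < 2)]
    linarith
  have hpos : 0 < 4 * dist a b ^ 2 * dist a c ^ 2 - (2 * ⟪b - a, c - a⟫_ℝ) ^ 2 := by
    have : 0 < cr (b - a) (c - a) ^ 2 := by positivity
    nlinarith [this, csq]
  refine core ρ (dist a p) (dist a b) (dist a c) (dist a p - dist p b) (dist a p - dist p c)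
    (dist a b ^ 2 - (dist a p - dist p b) ^ 2) (dist a c ^ 2 - (dist a p - dist p c) ^ 2)
    (2 * ⟪b - a, c - a⟫_ℝ)
    (4 * dist a b ^ 2 * dist a c ^ 2 - (2 * ⟪b - a, c - a⟫_ℝ) ^ 2 -
      4 * (dist a c ^ 2 * (dist a p - dist p b) ^ 2 -
        (2 * ⟪b - a, c - a⟫_ℝ) * (dist a p - dist p b) * (dist a p - dist p c) +
        dist a b ^ 2 * (dist a p - dist p c) ^ 2))
    _ _ hρ1 dist_nonneg dist_nonneg dist_nonneg hρb hρc (hhle.trans hρb) (hkle.trans hρc)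
    hβ0 hγ0 ?_ ?_ hE hpos ?_ ?_ rfl rfl ?_
  · exact (sub_le_self _ (sq_nonneg _)).trans hb2
  · exact (sub_le_self _ (sq_nonneg _)).trans hc2
  · rw [i3, hD, hx, hy, hz, hs, ht]
    have e : 4 * (s : ℝ) ^ 2 * (t : ℝ) ^ 2 - ((s : ℝ) ^ 2 + (t : ℝ) ^ 2 - (z : ℝ) ^ 2) ^ 2 -
      4 * ((t : ℝ) ^ 2 * ((D : ℝ) - x) ^ 2 -
        ((s : ℝ) ^ 2 + (t : ℝ) ^ 2 - (z : ℝ) ^ 2) * ((D : ℝ) - x) * ((D : ℝ) - y) +
        (s : ℝ) ^ 2 * ((D : ℝ) - y) ^ 2) =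
      ((4 * (s : ℤ) ^ 2 * (t : ℤ) ^ 2 - ((s : ℤ) ^ 2 + (t : ℤ) ^ 2 - (z : ℤ) ^ 2) ^ 2 -
      4 * ((t : ℤ) ^ 2 * ((D : ℤ) - x) ^ 2 -
        ((s : ℤ) ^ 2 + (t : ℤ) ^ 2 - (z : ℤ) ^ 2) * ((D : ℤ) - x) * ((D : ℤ) - y) +
        (s : ℤ) ^ 2 * ((D : ℤ) - y) ^ 2) : ℤ) : ℝ) := by
      push_cast
      ring
    rw [e]
    exact abs_int _
  · rw [i3, hD, hx, hy, hz, hs, ht]
    have e : 4 * (t : ℝ) ^ 2 * ((D : ℝ) - x) * ((s : ℝ) ^ 2 - ((D : ℝ) - x) ^ 2) -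
      2 * ((s : ℝ) ^ 2 + (t : ℝ) ^ 2 - (z : ℝ) ^ 2) *
        (((D : ℝ) - x) * ((t : ℝ) ^ 2 - ((D : ℝ) - y) ^ 2) +
          ((D : ℝ) - y) * ((s : ℝ) ^ 2 - ((D : ℝ) - x) ^ 2)) +
      4 * (s : ℝ) ^ 2 * ((D : ℝ) - y) * ((t : ℝ) ^ 2 - ((D : ℝ) - y) ^ 2) =
      ((4 * (t : ℤ) ^ 2 * ((D : ℤ) - x) * ((s : ℤ) ^ 2 - ((D : ℤ) - x) ^ 2) -
      2 * ((s : ℤ) ^ 2 + (t : ℤ) ^ 2 - (z : ℤ) ^ 2) *
        (((D : ℤ) - x) * ((t : ℤ) ^ 2 - ((D : ℤ) - y) ^ 2) +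
          ((D : ℤ) - y) * ((s : ℤ) ^ 2 - ((D : ℤ) - x) ^ 2)) +
      4 * (s : ℤ) ^ 2 * ((D : ℤ) - y) * ((t : ℤ) ^ 2 - ((D : ℤ) - y) ^ 2) : ℤ) : ℝ) := by
      push_cast
      ring
    rw [e]
    exact abs_int _
  · rw [i1, i2, i3] at g
    rw [i3]
    linear_combination g

end Pool.Agent.RCX
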