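import Pool.Agent.RCX.St

/-!
# Integer triangles have large heights
-/

set_option autoImplicit false

open scoped InnerProductSpace

namespace Pool.Agent.RCX

namespace TRI

theorem prod_ge {p q δ : ℝ} (hp : 1 ≤ p) (hq : δ ≤ q) (hδ : 0 ≤ δ) : δ ≤ p * q := by
  nlinarith [mul_nonneg (sub_nonneg.2 hp) hδ, mul_nonneg (sub_nonneg.2 hp) (sub_nonneg.2 hq)]

theorem num_aux {x y z δ : ℝ} (hδ : 0 ≤ δ) (hx : δ ≤ x) (hz0 : 0 ≤ z)
    (h1 : 1 ≤ x + y - z) (h2 : 1 ≤ z + x - y) (hxy : x ≤ y) :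
    2 * z ^ 2 * δ ≤ (x + y - z) * (x + y + z) * (z + x - y) * (z - x + y) := by
  have a1 : δ ≤ (x + y - z) * (z + x - y) := by
    rcases le_total z y with h | h
    · rw [mul_comm]
      exact prod_ge h2 (by linarith) hδ
    · exact prod_ge h1 (by linarith) hδ
  have a2 : 2 * z ≤ x + y + z := by linarith
  have a3 : z ≤ z - x + y := by linarith
  have a4 : 2 * z * z ≤ (x + y + z) * (z - x + y) :=
    mul_le_mul a2 a3 hz0 (by linarith)
  calc 2 * z ^ 2 * δ = (2 * z * z) * δ := by ring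
    _ ≤ ((x + y + z) * (z - x + y)) * ((x + y - z) * (z + x - y)) :=
        mul_le_mul a4 a1 hδ (le_trans (by positivity) a4)
    _ = _ := by ring

theorem num {x y z δ : ℝ} (hz0 : 0 ≤ z) (hx : δ ≤ x) (hy : δ ≤ y)
    (h1 : 1 ≤ x + y - z) (h2 : 1 ≤ z + x - y) (h3 : 1 ≤ z + y - x) :
    2 * z ^ 2 * δ ≤ (x + y - z) * (x + y + z) * (z + x - y) * (z - x + y) := by
  rcases le_total 0 δ with hδ | hδ
  · rcases le_total x y with h | h
    · exact num_aux hδ hx hz0 h1 h2 h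
    · have := num_aux (x := y) (y := x) hδ hy hz0 (by linarith) h3 h
      calc 2 * z ^ 2 * δ ≤ _ := this
        _ = _ := by ring
  · have e1 : 2 * z ^ 2 * δ ≤ 0 := mul_nonpos_of_nonneg_of_nonpos (by positivity) hδ
    have e2 : 0 ≤ (x + y - z) * (x + y + z) * (z + x - y) * (z - x + y) := by
      apply mul_nonneg
      · apply mul_nonneg
        · apply mul_nonneg <;> linarith
        · linarith
      · linarith
    linarith

theorem succ_le {x y z : ℕ} (h : (x : ℝ) < y + z) : 1 ≤ (y : ℝ) + z - x := by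
  have h1 : x < y + z := by exact_mod_cast h
  have h2 : x + 1 ≤ y + z := h1
  have h3 : (x : ℝ) + 1 ≤ y + z := by exact_mod_cast h2
  linarith

end TRI

theorem TRI_thm : t_TRI := by
  intro S hS a ha b hb c hc hab hac hbc δ h1 h2 h3
  obtain ⟨x, hx⟩ := hS.nat ha hb
  obtain ⟨y, hy⟩ := hS.nat ha hc
  obtain ⟨z, hz⟩ := hS.nat hb hc
  -- strict triangle inequalities
  have t1 : dist b c < dist b a + dist a c :=
    strict_tri (hS.1 b hb a ha c hc hab.symm hbc hac)
  have t2 : dist a c < dist a b + dist b c :=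
    strict_tri (hS.1 a ha b hb c hc hab hac hbc)
  have t3 : dist a b < dist a c + dist c b :=
    strict_tri (hS.1 a ha c hc b hb hac hab hbc.symm)
  rw [dist_comm b a] at t1
  rw [dist_comm c b] at t3
  rw [hx, hy, hz] at t1 t2 t3
  have u1 := TRI.succ_le t1
  have u2 := TRI.succ_le t2
  have u3 := TRI.succ_le t3
  rw [hx] at h1
  rw [hy] at h2
  rw [hz]
  have key := TRI.num (x := (x : ℝ)) (y := (y : ℝ)) (z := (z : ℝ)) (δ := δ) (by positivity)
    h1 h2 (by linarith) (by linarith) (by linarith)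
  -- the determinant
  have n1 : ‖b - a‖ ^ 2 = (x : ℝ) ^ 2 := by rw [← hx, dist_comm, dist_eq_norm]
  have n2 : ‖c - a‖ ^ 2 = (y : ℝ) ^ 2 := by rw [← hy, dist_comm, dist_eq_norm]
  have n3 : ‖b - c‖ ^ 2 = (z : ℝ) ^ 2 := by rw [← hz, dist_eq_norm]
  have hi : 2 * ⟪b - a, c - a⟫_ℝ = (x : ℝ) ^ 2 + y ^ 2 - z ^ 2 := by
    have e : b - c = (b - a) - (c - a) := by abel
    rw [e, norm_sub_sq_real, n1, n2] at n3
    linarith
  have hcr := cr_sq (b - a) (c - a)
  rw [n1, n2] at hcr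
  have h4 : 4 * cr (b - a) (c - a) ^ 2 =
      ((x : ℝ) + y - z) * (x + y + z) * (z + x - y) * (z - x + y) := by
    have : 4 * cr (b - a) (c - a) ^ 2 =
        4 * ((x : ℝ) ^ 2 * y ^ 2) - (2 * ⟪b - a, c - a⟫_ℝ) ^ 2 := by
      rw [hcr]; ring
    rw [this, hi]; ring
  linarith

end Pool.Agent.RCX
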